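import Pool.Agent.K6.H49.UGB.Ins

/-!
# The number of the violated constraints
-/

set_option autoImplicit false

open Finset

namespace Pool.Agent.K6.H49.UGB

open Pool.Agent.K6.H49.UGQ (S S_nil S_cons S_append S_add S_sub S_mul S_sum S_congr S_le S_nonneg
  S_map S_cs S_split)
open Pool.Agent.K6.H49.UGX (SE Cl gad cnt mul Low vc cA cB cG jA jB jG clause_ge Tru unsat lft
  gadget_ub cnt_eq')

/-- The cost of a constraint of the kind `k` between the labels `a` and `b`. -/
def kc (q k a b : ℕ) : ℝ := if ap q k a = b then 0 else 1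

def kv (q : ℕ) (f g : ℕ → ℕ) (e : KE) : ℝ := kc q e.2.2 (f e.1) (g e.2.1)

theorem kc_nonneg (q k a b : ℕ) : 0 ≤ kc q k a b := by
  unfold kc
  split_ifs <;> norm_num

/-- The cost of the two constraints of a pair. -/
def pc (q m : ℕ) (f g : ℕ → ℕ) (p : ℕ × ℕ) : ℝ := S (kv q f g) (pr m p)

theorem pc_eq (q m : ℕ) (f g : ℕ → ℕ) (p : ℕ × ℕ) : pc q m f g p =
    kc q 0 (f p.1) (g p.2) + kc q (if p.1 < m ∨ p.2 < m then 1 else 2) (f p.1) (g p.2) := by
  unfold pc pr kv
  rw [S_cons, S_cons, S_nil, add_zero]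

/-- A bad label: at least `2` at the vertices of the formula, not `0` at the other vertices. -/
def bd (m : ℕ) (f : ℕ → ℕ) (u : ℕ) : ℝ :=
  if u < m then (if f u < 2 then 0 else 1) else (if f u = 0 then 0 else 1)

theorem bd_nonneg (m : ℕ) (f : ℕ → ℕ) (u : ℕ) : 0 ≤ bd m f u := by
  unfold bd
  split_ifs <;> norm_num

theorem bd_le (m : ℕ) (f : ℕ → ℕ) (u : ℕ) : bd m f u ≤ 1 := by
  unfold bd
  split_ifs <;> norm_num

theorem kc1 (q a b : ℕ) : kc q 0 a b + kc q 1 a b =
    (if a = b then 0 else 1) + (if (if a = 0 then 1 else if a = 1 then 0 else a) = b then 0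
      else 1) := by
  unfold kc ap
  simp

/-- The pairs with a vertex of the formula. -/
theorem pc_mixed (q m : ℕ) (f g : ℕ → ℕ) (p : ℕ × ℕ) (hp : p.1 < m ∨ p.2 < m) :
    1 + (1 / 2 - 5 / 2 * ir (p.2 < m)) * bd m f p.1 +
      (1 / 2 - 5 / 2 * ir (p.1 < m)) * bd m g p.2 ≤ pc q m f g p := by
  rw [pc_eq, if_pos hp, kc1]
  unfold ir bd
  generalize f p.1 = a
  generalize g p.2 = b
  by_cases h1 : p.1 < m
  · by_cases h2 : p.2 < m
    · rw [if_pos h1, if_pos h2, if_pos h1, if_pos h2]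
      rcases Nat.lt_or_ge a 2 with ha | ha
      · rcases Nat.lt_or_ge b 2 with hb | hb
        · interval_cases a <;> interval_cases b <;> norm_num
        · rw [if_pos ha, if_neg (by omega)]
          split_ifs <;> norm_num
      · rw [if_neg (by omega)]
        split_ifs <;> norm_num
    · rw [if_pos h1, if_neg h2, if_pos h1, if_neg h2]
      by_cases hb : b = 0
      · subst hb
        rcases Nat.lt_or_ge a 2 with ha | ha
        · interval_cases a <;> norm_num
        · have e1 : ¬ a = 0 := by omega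
          have e2 : ¬ a = 1 := by omega
          have e3 : ¬ a < 2 := by omega
          simp only [e1, e2, e3, if_false, if_true]
          norm_num
      · rw [if_neg hb]
        split_ifs <;> norm_num
  · have h2 : p.2 < m := by tauto
    rw [if_neg h1, if_pos h2, if_neg h1, if_pos h2]
    by_cases ha : a = 0
    · subst ha
      rcases Nat.lt_or_ge b 2 with hb | hb
      · interval_cases b <;> norm_num
      · have e1 : ¬ 0 = b := by omega
        have e2 : ¬ 1 = b := by omega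
        have e3 : ¬ b < 2 := by omega
        simp only [e1, e2, e3, if_false, if_true]
        norm_num
    · rw [if_neg ha]
      split_ifs <;> norm_num

/-- The hub condition. -/
def HH (q m : ℕ) (P : List (ℕ × ℕ)) (f g : ℕ → ℕ) : Prop :=
  1 / 2 * S (fun p => (1 - ir (p.1 < m ∨ p.2 < m)) * (bd m f p.1 + bd m g p.2)) P ≤
    S (fun p => (1 - ir (p.1 < m ∨ p.2 < m)) * pc q m f g p) P

variable {n m D : ℕ} {lm θ : ℝ} {P : List (ℕ × ℕ)}

/-- The number of the pairs with a vertex of the formula. -/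
def W0 (m : ℕ) (P : List (ℕ × ℕ)) : ℝ := S (fun p => ir (p.1 < m ∨ p.2 < m)) P

theorem few_left (h : Host n m D lm θ P) {b : ℕ → ℝ} (hb : ∀ u, 0 ≤ b u) :
    S (fun p => ir (p.2 < m) * b p.1) P ≤ θ * D * ∑ u ∈ range n, b u := by
  rw [S_split (fun p : ℕ × ℕ => p.1) (fun p hp => (h.reg.lt p hp).1), mul_sum]
  refine sum_le_sum fun u hu => ?_
  have e1 : S (fun p : ℕ × ℕ => if p.1 = u then ir (p.2 < m) * b p.1 else 0) P =
      S (fun p : ℕ × ℕ => b u * (if p.1 = u ∧ p.2 < m then 1 else 0)) P := by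
    refine S_congr fun p _ => ?_
    unfold ir
    by_cases h1 : p.1 = u <;> by_cases h2 : p.2 < m <;> simp [h1, h2]
  rw [e1, S_mul, mul_comm]
  exact mul_le_mul_of_nonneg_right (h.fewL u (mem_range.1 hu)) (hb u)

theorem few_right (h : Host n m D lm θ P) {b : ℕ → ℝ} (hb : ∀ u, 0 ≤ b u) :
    S (fun p => ir (p.1 < m) * b p.2) P ≤ θ * D * ∑ u ∈ range n, b u := by
  rw [S_split (fun p : ℕ × ℕ => p.2) (fun p hp => (h.reg.lt p hp).2), mul_sum]
  refine sum_le_sum fun u hu => ?_
  have e1 : S (fun p : ℕ × ℕ => if p.2 = u then ir (p.1 < m) * b p.2 else 0) P =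
      S (fun p : ℕ × ℕ => b u * (if p.2 = u ∧ p.1 < m then 1 else 0)) P := by
    refine S_congr fun p _ => ?_
    unfold ir
    by_cases h1 : p.2 = u <;> by_cases h2 : p.1 < m <;> simp [h1, h2]
  rw [e1, S_mul, mul_comm]
  exact mul_le_mul_of_nonneg_right (h.fewR u (mem_range.1 hu)) (hb u)

/-- The cost of the host graph. -/
theorem host_cost (h : Host n m D lm θ P) {q : ℕ} {f g : ℕ → ℕ} (hh : HH q m P f g) :
    W0 m P + (1 / 2 - 5 / 2 * θ) * D * (∑ u ∈ range n, bd m f u + ∑ u ∈ range n, bd m g u) ≤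
      S (pc q m f g) P := by
  have e1 : S (pc q m f g) P = S (fun p => (1 - ir (p.1 < m ∨ p.2 < m)) * pc q m f g p) P +
      S (fun p => ir (p.1 < m ∨ p.2 < m) * pc q m f g p) P := by
    rw [← S_add]
    exact S_congr fun p _ => by ring
  have e2 : S (fun p : ℕ × ℕ => ir (p.1 < m ∨ p.2 < m) * (1 + (1 / 2 - 5 / 2 * ir (p.2 < m)) *
      bd m f p.1 + (1 / 2 - 5 / 2 * ir (p.1 < m)) * bd m g p.2)) P ≤
      S (fun p => ir (p.1 < m ∨ p.2 < m) * pc q m f g p) P := by
    refine S_le fun p _ => ?_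
    by_cases hp : p.1 < m ∨ p.2 < m
    · have : ir (p.1 < m ∨ p.2 < m) = 1 := if_pos hp
      rw [this, one_mul, one_mul]
      exact pc_mixed q m f g p hp
    · have : ir (p.1 < m ∨ p.2 < m) = 0 := if_neg hp
      rw [this, zero_mul, zero_mul]
  have e3 : S (fun p : ℕ × ℕ => ir (p.1 < m ∨ p.2 < m) * (1 + (1 / 2 - 5 / 2 * ir (p.2 < m)) *
      bd m f p.1 + (1 / 2 - 5 / 2 * ir (p.1 < m)) * bd m g p.2)) P = W0 m P +
      (1 / 2 * S (fun p => bd m f p.1) P - 5 / 2 * S (fun p => ir (p.2 < m) * bd m f p.1) P +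
      1 / 2 * S (fun p => bd m g p.2) P - 5 / 2 * S (fun p => ir (p.1 < m) * bd m g p.2) P) -
      1 / 2 * S (fun p => (1 - ir (p.1 < m ∨ p.2 < m)) * (bd m f p.1 + bd m g p.2)) P := by
    unfold W0
    rw [← S_mul, ← S_mul, ← S_mul, ← S_mul, ← S_mul, ← S_sub, ← S_add, ← S_sub, ← S_add, ← S_sub]
    refine S_congr fun p _ => ?_
    unfold ir
    by_cases h1 : p.1 < m <;> by_cases h2 : p.2 < m <;> simp [h1, h2] <;> ring
  have l1 := few_left h (bd_nonneg m f)
  have l2 := few_right h (bd_nonneg m g)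
  have l3 := h.reg.left (bd m f)
  have l4 := h.reg.right (bd m g)
  unfold HH at hh
  rw [e1]
  rw [e3, l3, l4] at e2
  linarith

/-! ### The constraints of the clauses -/

/-- The Boolean label. -/
def bo (m : ℕ) (f : ℕ → ℕ) (u : ℕ) : Bool := if u < m then decide (f u = 1) else false

theorem kc_bool (q m : ℕ) (f g : ℕ → ℕ) (e : SE) :
    ((vc (bo m f e.1) (bo m g e.2.1) e.2.2 : ℕ) : ℝ) - bd m f e.1 - bd m g e.2.1 ≤
      kv q f g (toK e) := by
  obtain ⟨u, v, z⟩ := e
  have hv : ((vc (bo m f u) (bo m g v) z : ℕ) : ℝ) ≤ 1 := by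
    unfold vc
    split_ifs <;> norm_num
  have h0 := kc_nonneg q (if z = true then 1 else 0) (f u) (g v)
  have hk : kv q f g (toK (u, v, z)) = kc q (if z = true then 1 else 0) (f u) (g v) := rfl
  rw [hk]
  simp only
  have b1 := bd_nonneg m f u
  have b2 := bd_nonneg m g v
  by_cases g1 : bd m f u = 0
  · by_cases g2 : bd m g v = 0
    · rw [g1, g2, sub_zero, sub_zero]
      -- both labels are good
      have hf : (bo m f u = true ∧ f u = 1) ∨ (bo m f u = false ∧ f u = 0) := by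
        unfold bd at g1
        unfold bo
        split_ifs at g1 with c1 c2 c2
        · rw [if_pos c1]
          have : f u = 0 ∨ f u = 1 := by omega
          rcases this with h | h
          · right; rw [h]; exact ⟨rfl, rfl⟩
          · left; rw [h]; exact ⟨rfl, rfl⟩
        · exact absurd g1 one_ne_zero
        · rw [if_neg c1]
          right
          exact ⟨rfl, c2⟩
        · exact absurd g1 one_ne_zero
      have hg : (bo m g v = true ∧ g v = 1) ∨ (bo m g v = false ∧ g v = 0) := by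
        unfold bd at g2
        unfold bo
        split_ifs at g2 with c1 c2 c2
        · rw [if_pos c1]
          have : g v = 0 ∨ g v = 1 := by omega
          rcases this with h | h
          · right; rw [h]; exact ⟨rfl, rfl⟩
          · left; rw [h]; exact ⟨rfl, rfl⟩
        · exact absurd g2 one_ne_zero
        · rw [if_neg c1]
          right
          exact ⟨rfl, c2⟩
        · exact absurd g2 one_ne_zero
      unfold kc ap
      rcases hf with ⟨h1, h2⟩ | ⟨h1, h2⟩ <;> rcases hg with ⟨h3, h4⟩ | ⟨h3, h4⟩ <;>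
        rw [h1, h2, h3, h4] <;> cases z <;> simp [vc]
    · have : bd m g v = 1 := by
        unfold bd at g2 ⊢
        split_ifs at g2 ⊢ <;> first | rfl | exact absurd rfl g2
      linarith
  · have : bd m f u = 1 := by
      unfold bd at g1 ⊢
      split_ifs at g1 ⊢ <;> first | rfl | exact absurd rfl g1
    linarith

/-- The sum over the constraints of the clauses of a function of one end. -/
theorem bs_end {m : ℕ} {cl : ℕ → Cl} (hl : Low m cl) {B : ℕ} (hB : ∀ w < 4 * m, cnt m cl w ≤ B)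
    (hn : 8 * m ≤ n) {b : ℕ → ℝ} (hb : ∀ u, 0 ≤ b u) :
    S (fun e => b e.1) (bs m cl) ≤ 8 * B * ∑ u ∈ range n, b u ∧
    S (fun e => b e.2.1) (bs m cl) ≤ 8 * B * ∑ u ∈ range n, b u := by
  have key : ∀ (p : SE → ℕ), (∀ e ∈ bs m cl, p e < n) →
      (∀ u, S (fun e => ir (p e = u)) (bs m cl) = dgr m cl u) →
      S (fun e => b (p e)) (bs m cl) ≤ 8 * B * ∑ u ∈ range n, b u := by
    intro p hp hd
    rw [S_split p hp, mul_sum]
    refine sum_le_sum fun u _ => ?_
    have e1 : S (fun e => if p e = u then b (p e) else 0) (bs m cl) =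
        S (fun e => b u * ir (p e = u)) (bs m cl) := by
      refine S_congr fun e _ => ?_
      unfold ir
      split_ifs with h
      · rw [h]; ring
      · ring
    rw [e1, S_mul, hd, mul_comm]
    refine mul_le_mul_of_nonneg_right ?_ (hb u)
    exact_mod_cast dgr_le hB u
  refine ⟨key _ (fun e he => ?_) (bs_left hl), key _ (fun e he => ?_) (bs_right hl)⟩
  · have := bs_lt hl he; omega
  · have := bs_lt hl he; omega

/-- The Boolean cost of the constraints of the clauses. -/
theorem bool_cost {m : ℕ} {cl : ℕ → Cl} (f g : ℕ → ℕ) :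
    8 * (m : ℝ) + 4 * (unsat m cl (fun v => bo (4 * m) f v == false) : ℕ) ≤
      S (fun e => ((vc (bo (4 * m) f e.1) (bo (4 * m) g e.2.1) e.2.2 : ℕ) : ℝ)) (bs m cl) := by
  have h := clause_ge (m := m) (cl := cl) (bo (4 * m) f) (bo (4 * m) g) false
  have h' : 8 * (m : ℝ) + 4 * (unsat m cl (fun v => bo (4 * m) f v == false) : ℕ) ≤
      (∑ j ∈ range m, (jA m cl (bo (4 * m) f) j false : ℝ)) +
      (∑ j ∈ range m, (jB m cl (bo (4 * m) g) j false : ℝ)) +
      ∑ j ∈ range m, (jG m cl (bo (4 * m) f) (bo (4 * m) g) j : ℝ) := by exact_mod_cast h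
  refine h'.trans (le_of_eq ?_)
  rw [S_bs, ← sum_add_distrib, ← sum_add_distrib]
  refine sum_congr rfl fun j hj => ?_
  rw [mem_range] at hj
  have hF : ∀ (f : ℕ → ℕ) (w : ℕ), bo (4 * m) f (4 * m + w) = false := fun f w =>
    if_neg (by omega)
  simp only [gad, tg2, S_cons, S_nil, hF, jA, jB, jG, cA, cB, cG]
  push_cast
  ring

/-- **The lower bound, under the hub condition.** -/
theorem lower {m : ℕ} {cl : ℕ → Cl} (h : Host n (4 * m) D lm θ P) (hl : Low m cl) {B g : ℕ}
    (hB : ∀ w < 4 * m, cnt m cl w ≤ B) (hD : 8 * B * g ≤ (1 / 2 - 5 / 2 * θ) * D) {u : ℕ}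
    (hu : ∀ x, u ≤ unsat m cl x) {q : ℕ} {f f' : ℕ → ℕ} (hh : HH q (4 * m) P f f') :
    W0 (4 * m) P + g * (8 * m + 4 * u) ≤ S (kv q f f') (all g n m B cl P) := by
  rw [S_all]
  have hn : 8 * m ≤ n := by have := h.le; omega
  have h1 := host_cost h hh
  have h2 := bool_cost (m := m) (cl := cl) f f'
  have h3 := hu (fun v => bo (4 * m) f v == false)
  have h3' : (u : ℝ) ≤ (unsat m cl (fun v => bo (4 * m) f v == false) : ℕ) := by exact_mod_cast h3
  have h4 : S (fun e => ((vc (bo (4 * m) f e.1) (bo (4 * m) f' e.2.1) e.2.2 : ℕ) : ℝ)) (bs m cl) -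
      S (fun e => bd (4 * m) f e.1) (bs m cl) - S (fun e => bd (4 * m) f' e.2.1) (bs m cl) ≤
      S (fun e => kv q f f' (toK e)) (bs m cl) := by
    rw [← S_sub, ← S_sub]
    exact S_le fun e _ => kc_bool q (4 * m) f f' e
  have h5 := (bs_end hl hB hn (bd_nonneg (4 * m) f)).1
  have h6 := (bs_end hl hB hn (bd_nonneg (4 * m) f')).2
  have h7 : 0 ≤ S (fun e => kv q f f' (toK e)) (lp n m B cl) :=
    S_nonneg fun e _ => kc_nonneg _ _ _ _
  have hg : (0 : ℝ) ≤ g := Nat.cast_nonneg g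
  have h8 : (g : ℝ) * (8 * m + 4 * u - 8 * B * (∑ u ∈ range n, bd (4 * m) f u +
      ∑ u ∈ range n, bd (4 * m) f' u)) ≤ g * (S (fun e => kv q f f' (toK e)) (bs m cl) +
        S (fun e => kv q f f' (toK e)) (lp n m B cl)) :=
    mul_le_mul_of_nonneg_left (by linarith) hg
  have h9 : 0 ≤ ∑ u ∈ range n, bd (4 * m) f u + ∑ u ∈ range n, bd (4 * m) f' u :=
    add_nonneg (sum_nonneg fun _ _ => bd_nonneg _ _ _) (sum_nonneg fun _ _ => bd_nonneg _ _ _)
  have h10 := mul_le_mul_of_nonneg_right hD h9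
  have h11 : S (fun p => S (kv q f f') (pr (4 * m) p)) P = S (pc q (4 * m) f f') P := rfl
  rw [h11]
  nlinarith

/-! ### The hub condition -/

/-- For at least three labels every labeling satisfies the hub condition. -/
theorem hh_three (m : ℕ) (P : List (ℕ × ℕ)) {q : ℕ} (hq : 3 ≤ q) {f g : ℕ → ℕ}
    (hf : ∀ u, f u < q) : HH q m P f g := by
  unfold HH
  rw [← S_mul]
  refine S_le fun p _ => ?_
  by_cases hp : p.1 < m ∨ p.2 < m
  · have : ir (p.1 < m ∨ p.2 < m) = 1 := if_pos hp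
    rw [this]
    norm_num
  · have e1 : ir (p.1 < m ∨ p.2 < m) = 0 := if_neg hp
    rw [e1, pc_eq, if_neg hp, sub_zero, one_mul, one_mul]
    have hp' : ¬ p.1 < m ∧ ¬ p.2 < m := by tauto
    have hb1 := bd_le m f p.1
    have hb2 := bd_le m g p.2
    have k1 := kc_nonneg q 0 (f p.1) (g p.2)
    have k2 := kc_nonneg q 2 (f p.1) (g p.2)
    by_cases h0 : f p.1 = 0 ∧ g p.2 = 0
    · have a1 : bd m f p.1 = 0 := by
        unfold bd; rw [if_neg hp'.1, if_pos h0.1]
      have a2 : bd m g p.2 = 0 := by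
        unfold bd; rw [if_neg hp'.2, if_pos h0.2]
      rw [a1, a2]
      linarith
    · have hlt := hf p.1
      by_cases hab : f p.1 = g p.2
      · have h1 : kc q 2 (f p.1) (g p.2) = 1 := by
          unfold kc ap
          rw [if_neg]
          rw [← hab]
          have h2 : f p.1 ≠ 0 := fun h => h0 ⟨h, by rw [← hab]; exact h⟩
          simp only [h2, if_false, OfNat.ofNat_ne_zero, OfNat.ofNat_ne_one]
          split_ifs with h3
          · omega
          · omega
        linarith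
      · have h1 : kc q 0 (f p.1) (g p.2) = 1 := by
          unfold kc ap
          rw [if_pos rfl, if_neg hab]
        linarith

/-- General mixing. -/
theorem Reg.mixing {n D : ℕ} {lm : ℝ} {P : List (ℕ × ℕ)} (h : Reg n D lm P) (hn : 0 < n)
    (x y : ℕ → ℝ) : S (fun p => x p.1 * y p.2) P ≤
      D * ((∑ u ∈ range n, x u) * (∑ u ∈ range n, y u) / n +
        lm * (√(∑ u ∈ range n, x u ^ 2) * √(∑ u ∈ range n, y u ^ 2))) := by
  have hn' : (0 : ℝ) < n := by exact_mod_cast hn
  set a : ℝ := (∑ u ∈ range n, x u) / n with ha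
  set b : ℝ := (∑ u ∈ range n, y u) / n with hb
  have ea : ∑ u ∈ range n, x u = n * a := by rw [ha]; field_simp
  have eb : ∑ u ∈ range n, y u = n * b := by rw [hb]; field_simp
  have za : ∑ u ∈ range n, (x u - a) = 0 := by
    rw [sum_sub_distrib, ea]; simp
  have zb : ∑ u ∈ range n, (y u - b) = 0 := by
    rw [sum_sub_distrib, eb]; simp
  have h1 := (abs_le.1 (h.mix (fun u => x u - a) (fun u => y u - b) za zb)).2
  have e1 : S (fun p : ℕ × ℕ => x p.1 * y p.2) P = S (fun p : ℕ × ℕ => (x p.1 - a) * (y p.2 - b)) P +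
      D * (n * a * b) := by
    have : S (fun p : ℕ × ℕ => x p.1 * y p.2) P = S (fun p : ℕ × ℕ => ((x p.1 - a) * (y p.2 - b) +
        b * (x p.1)) + (a * (y p.2 - b))) P := S_congr fun p _ => by ring
    rw [this, S_add, S_add, S_mul, S_mul, h.left x, h.right fun u => y u - b, zb, ea]
    ring
  have sx : ∀ (x : ℕ → ℝ) (a : ℝ), ∑ u ∈ range n, x u = n * a →
      ∑ u ∈ range n, (x u - a) ^ 2 ≤ ∑ u ∈ range n, x u ^ 2 := by
    intro x a hx
    have : ∑ u ∈ range n, (x u - a) ^ 2 = ∑ u ∈ range n, x u ^ 2 -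
        2 * a * ∑ u ∈ range n, x u + n * a ^ 2 := by
      rw [mul_sum, ← sum_sub_distrib]
      have : (n : ℝ) * a ^ 2 = ∑ _i ∈ range n, a ^ 2 := by simp
      rw [this, ← sum_add_distrib]
      exact sum_congr rfl fun i _ => by ring
    rw [this, hx]
    nlinarith [mul_nonneg hn'.le (sq_nonneg a)]
  have h2 : √(∑ u ∈ range n, (x u - a) ^ 2) * √(∑ u ∈ range n, (y u - b) ^ 2) ≤
      √(∑ u ∈ range n, x u ^ 2) * √(∑ u ∈ range n, y u ^ 2) :=
    mul_le_mul (Real.sqrt_le_sqrt (sx x a ea)) (Real.sqrt_le_sqrt (sx y b eb))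
      (Real.sqrt_nonneg _) (Real.sqrt_nonneg _)
  have h3 := mul_le_mul_of_nonneg_left h2 (mul_nonneg h.nonneg (Nat.cast_nonneg D))
  rw [e1, ea, eb]
  have e2 : (n : ℝ) * a * (n * b) / n = n * a * b := by field_simp
  rw [e2]
  linarith

/-- The number of the hubs with the label `1`. -/
def hub (n m : ℕ) (f : ℕ → ℕ) : ℝ := ∑ u ∈ range n, if u < m then 0 else (if f u = 0 then 0 else 1)

/-- For two labels the hub condition holds if the label `0` is more frequent at the hubs. -/
theorem hh_two (h : Host n m D lm θ P) (hθ : θ ≤ 1 / 10) (hlm : lm ≤ 1 / 10) {f g : ℕ → ℕ}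
    (hf : ∀ u, f u < 2) (hg : ∀ u, g u < 2) (hT : hub n m f + hub n m g ≤ n) :
    HH 2 m P f g := by
  have hn : 0 < n := by have := h.mpos; have := h.le; omega
  have hn' : (0 : ℝ) < n := by exact_mod_cast hn
  have hD : (0 : ℝ) < D := by exact_mod_cast h.dpos
  set x : ℕ → ℝ := fun u => if u < m then 0 else (if f u = 0 then 0 else 1) with hx
  set y : ℕ → ℝ := fun u => if u < m then 0 else (if g u = 0 then 0 else 1) with hy
  have hx0 : ∀ u, 0 ≤ x u := fun u => by simp only [hx]; split_ifs <;> norm_num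
  have hy0 : ∀ u, 0 ≤ y u := fun u => by simp only [hy]; split_ifs <;> norm_num
  have hx2 : ∀ u, x u ^ 2 = x u := fun u => by simp only [hx]; split_ifs <;> norm_num
  have hy2 : ∀ u, y u ^ 2 = y u := fun u => by simp only [hy]; split_ifs <;> norm_num
  have hX : ∑ u ∈ range n, x u = hub n m f := rfl
  have hY : ∑ u ∈ range n, y u = hub n m g := rfl
  have hX0 : 0 ≤ hub n m f := by rw [← hX]; exact sum_nonneg fun u _ => hx0 u
  have hY0 : 0 ≤ hub n m g := by rw [← hY]; exact sum_nonneg fun u _ => hy0 u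
  -- the sum of the bad labels
  have hA : S (fun p => (1 - ir (p.1 < m ∨ p.2 < m)) * (bd m f p.1 + bd m g p.2)) P =
      S (fun p => x p.1) P - S (fun p => ir (p.2 < m) * x p.1) P +
      (S (fun p => y p.2) P - S (fun p => ir (p.1 < m) * y p.2) P) := by
    rw [← S_sub, ← S_sub, ← S_add]
    refine S_congr fun p _ => ?_
    simp only [hx, hy]
    unfold ir bd
    by_cases h1 : p.1 < m <;> by_cases h2 : p.2 < m <;> simp [h1, h2]
  have hC : S (fun p => (1 - ir (p.1 < m ∨ p.2 < m)) * pc 2 m f g p) P =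
      2 * (S (fun p => (1 - ir (p.1 < m ∨ p.2 < m)) * (bd m f p.1 + bd m g p.2)) P -
        2 * S (fun p => x p.1 * y p.2) P) := by
    rw [← S_mul, ← S_sub, ← S_mul]
    refine S_congr fun p _ => ?_
    by_cases hp : p.1 < m ∨ p.2 < m
    · have e1 : ir (p.1 < m ∨ p.2 < m) = 1 := if_pos hp
      have e2 : x p.1 * y p.2 = 0 := by
        simp only [hx, hy]
        rcases hp with hp | hp
        · rw [if_pos hp, zero_mul]
        · rw [if_pos hp, mul_zero]
      rw [e1, e2]
      ring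
    · have e1 : ir (p.1 < m ∨ p.2 < m) = 0 := if_neg hp
      have hp' : ¬ p.1 < m ∧ ¬ p.2 < m := by tauto
      rw [e1, pc_eq, if_neg hp]
      simp only [hx, hy]
      unfold bd kc ap
      rw [if_neg hp'.1, if_neg hp'.2, if_neg hp'.1, if_neg hp'.2]
      have a1 := hf p.1
      have a2 := hg p.2
      generalize f p.1 = a at a1 ⊢
      generalize g p.2 = b at a2 ⊢
      interval_cases a <;> interval_cases b <;> norm_num
  have l1 := few_left h hx0
  have l2 := few_right h hy0
  have l3 := h.reg.left x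
  have l4 := h.reg.right y
  have l5 := h.reg.mixing hn x y
  rw [hX] at l1 l3 l5
  rw [hY] at l2 l4 l5
  have e1 : ∑ u ∈ range n, x u ^ 2 = hub n m f := by rw [← hX]; exact sum_congr rfl fun u _ => hx2 u
  have e2 : ∑ u ∈ range n, y u ^ 2 = hub n m g := by rw [← hY]; exact sum_congr rfl fun u _ => hy2 u
  rw [e1, e2] at l5
  set X := hub n m f
  set Y := hub n m g
  have h1 : √X * √Y ≤ (X + Y) / 2 := by
    have a1 := Real.sq_sqrt hX0
    have a2 := Real.sq_sqrt hY0
    nlinarith [sq_nonneg (√X - √Y)]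
  have h2 : X * Y / n ≤ (X + Y) / 4 := by
    rw [div_le_iff₀ hn']
    have : X * Y ≤ (X + Y) ^ 2 / 4 := by nlinarith [sq_nonneg (X - Y)]
    nlinarith
  have h3 : lm * (√X * √Y) ≤ 1 / 10 * ((X + Y) / 2) :=
    mul_le_mul hlm h1 (by positivity) (by norm_num)
  have h4 : (D : ℝ) * (X * Y / n + lm * (√X * √Y)) ≤ D * ((X + Y) / 4 + 1 / 10 * ((X + Y) / 2)) :=
    mul_le_mul_of_nonneg_left (by linarith) hD.le
  have h5 : θ * D * X ≤ 1 / 10 * D * X := by
    have := mul_le_mul_of_nonneg_right hθ (mul_nonneg hD.le hX0)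
    linarith
  have h6 : θ * D * Y ≤ 1 / 10 * D * Y := by
    have := mul_le_mul_of_nonneg_right hθ (mul_nonneg hD.le hY0)
    linarith
  unfold HH
  rw [hC]
  have hA' : (9 / 10 : ℝ) * D * (X + Y) ≤
      S (fun p => (1 - ir (p.1 < m ∨ p.2 < m)) * (bd m f p.1 + bd m g p.2)) P := by
    rw [hA, l3, l4]
    linarith
  generalize S (fun p => (1 - ir (p.1 < m ∨ p.2 < m)) * (bd m f p.1 + bd m g p.2)) P = Z at hA' ⊢
  have hZ := l5.trans h4
  nlinarith

/-- Exchanging the two labels. -/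
theorem flip (e : KE) {f g : ℕ → ℕ} (hf : ∀ u, f u < 2) (hg : ∀ u, g u < 2) :
    kv 2 (fun u => 1 - f u) (fun u => 1 - g u) e = kv 2 f g e := by
  obtain ⟨u, v, k⟩ := e
  unfold kv kc ap
  simp only
  have a1 := hf u
  have a2 := hg v
  generalize f u = a at a1 ⊢
  generalize g v = b at a2 ⊢
  by_cases h0 : k = 0
  · subst h0
    interval_cases a <;> interval_cases b <;> norm_num
  · by_cases h1 : k = 1
    · subst h1
      interval_cases a <;> interval_cases b <;> norm_num
    · simp only [h0, h1, if_false]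
      interval_cases a <;> interval_cases b <;> norm_num

theorem hub_flip (n m : ℕ) {f : ℕ → ℕ} (hf : ∀ u, f u < 2) :
    hub n m (fun u => 1 - f u) + hub n m f ≤ n := by
  unfold hub
  rw [← sum_add_distrib]
  calc _ ≤ ∑ u ∈ range n, (1 : ℝ) := by
        refine sum_le_sum fun u _ => ?_
        have a1 := hf u
        beta_reduce
        generalize f u = a at a1 ⊢
        by_cases hu : u < m
        · simp [hu]
        · interval_cases a <;> simp [hu]
    _ = n := by simp

/-- **The lower bound.** -/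
theorem cost_no {m : ℕ} {cl : ℕ → Cl} (h : Host n (4 * m) D lm θ P) (hl : Low m cl) {B g : ℕ}
    (hB : ∀ w < 4 * m, cnt m cl w ≤ B) (hD : 8 * B * g ≤ (1 / 2 - 5 / 2 * θ) * D)
    (hθ : θ ≤ 1 / 10) (hlm : lm ≤ 1 / 10) {u : ℕ} (hu : ∀ x, u ≤ unsat m cl x) {q : ℕ}
    (hq : 2 ≤ q) {f f' : ℕ → ℕ} (hf : ∀ u, f u < q) (hf' : ∀ u, f' u < q) :
    W0 (4 * m) P + g * (8 * m + 4 * u) ≤ S (kv q f f') (all g n m B cl P) := by
  rcases Nat.lt_or_ge 2 q with h3 | h3
  · exact lower h hl hB hD hu (hh_three _ _ h3 hf)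
  · have : q = 2 := by omega
    subst this
    by_cases hT : hub n (4 * m) f + hub n (4 * m) f' ≤ n
    · exact lower h hl hB hD hu (hh_two h hθ hlm hf hf' hT)
    · have h1 := hub_flip n (4 * m) hf
      have h2 := hub_flip n (4 * m) hf'
      have hc : S (kv 2 f f') (all g n m B cl P) =
          S (kv 2 (fun u => 1 - f u) (fun u => 1 - f' u)) (all g n m B cl P) :=
        S_congr fun e _ => (flip e hf hf').symm
      rw [hc]
      refine lower h hl hB hD hu (hh_two h hθ hlm (fun u => ?_) (fun u => ?_) ?_)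
      · have := hf u
        omega
      · have := hf' u
        omega
      · push Not at hT
        linarith

/-! ### The upper bound -/

theorem cost_yes {m : ℕ} {cl : ℕ → Cl} (hl : Low m cl) (g n B : ℕ) {q : ℕ} (hq : 2 ≤ q)
    {x : ℕ → Bool} (hx : ∀ j < m, Tru x (cl j)) : ∃ f : ℕ → ℕ, (∀ u, f u < q) ∧
      S (kv q f f) (all g n m B cl P) ≤ W0 (4 * m) P + g * (8 * m) := by
  have hτ : ∀ j : ℕ, ∃ t : Bool, j < m →
      cA (!x (cl j).1.1) (!x (cl j).2.1.1) (!x (cl j).2.2.1) t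
        (cl j).1.2 (cl j).2.1.2 (cl j).2.2.2 false +
      cB (!x (cl j).1.1) (!x (cl j).2.1.1) (!x (cl j).2.2.1) t
        (cl j).1.2 (cl j).2.1.2 (cl j).2.2.2 false +
      cG (!x (cl j).1.1) (!x (cl j).2.1.1) (!x (cl j).2.2.1) t
        (!x (cl j).1.1) (!x (cl j).2.1.1) (!x (cl j).2.2.1) t
        (cl j).1.2 (cl j).2.1.2 (cl j).2.2.2 ≤ 8 := by
    intro j
    by_cases hj : j < m
    · obtain ⟨t, ht⟩ := gadget_ub _ _ _ _ _ _ (hx j hj)
      exact ⟨t, fun _ => ht⟩
    · exact ⟨false, fun h => absurd h hj⟩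
  choose τ hτ using hτ
  let b : ℕ → Bool := fun w => if w < 3 * m then !x w else if w < 4 * m then τ (w - 3 * m)
    else false
  let f : ℕ → ℕ := fun w => if b w = true then 1 else 0
  have hf2 : ∀ u, f u < 2 := fun u => by simp only [f]; split_ifs <;> omega
  have hb0 : ∀ w, 4 * m ≤ w → b w = false := fun w hw => by
    simp only [b]
    rw [if_neg (by omega), if_neg (by omega)]
  refine ⟨f, fun u => (hf2 u).trans_le hq, ?_⟩
  rw [S_all]
  -- the host graph
  have h1 : S (fun p : ℕ × ℕ => S (kv q f f) (pr (4 * m) p)) P ≤ W0 (4 * m) P := by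
    refine S_le fun p _ => ?_
    have e1 : S (kv q f f) (pr (4 * m) p) = pc q (4 * m) f f p := rfl
    rw [e1, pc_eq]
    by_cases hp : p.1 < 4 * m ∨ p.2 < 4 * m
    · have e2 : ir (p.1 < 4 * m ∨ p.2 < 4 * m) = 1 := if_pos hp
      rw [e2, if_pos hp, kc1]
      have a1 := hf2 p.1
      have a2 := hf2 p.2
      generalize f p.1 = a at a1 ⊢
      generalize f p.2 = c at a2 ⊢
      interval_cases a <;> interval_cases c <;> norm_num
    · have e2 : ir (p.1 < 4 * m ∨ p.2 < 4 * m) = 0 := if_neg hp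
      have hp' : ¬ p.1 < 4 * m ∧ ¬ p.2 < 4 * m := by tauto
      rw [e2, if_neg hp]
      have a1 : f p.1 = 0 := by
        simp only [f]; rw [hb0 _ (by omega)]; rfl
      have a2 : f p.2 = 0 := by
        simp only [f]; rw [hb0 _ (by omega)]; rfl
      rw [a1, a2]
      unfold kc ap
      norm_num
  -- the loops
  have h2 : S (fun e => kv q f f (toK e)) (lp n m B cl) = 0 := by
    rw [S_lp]
    refine sum_eq_zero fun u _ => ?_
    have : kv q f f (toK (u, u, false)) = 0 := by
      unfold kv toK kc ap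
      simp
    rw [this, mul_zero]
  -- the clauses
  have hkv : ∀ e : SE, kv q f f (toK e) = ((vc (b e.1) (b e.2.1) e.2.2 : ℕ) : ℝ) := by
    rintro ⟨u, v, z⟩
    have : kv q f f (toK (u, v, z)) = kc q (if z = true then 1 else 0) (f u) (f v) := rfl
    rw [this]
    unfold kc ap
    simp only [f]
    generalize b u = β
    generalize b v = γ
    cases β <;> cases γ <;> cases z <;> simp [vc]
  have h3 : S (fun e => kv q f f (toK e)) (bs m cl) ≤ 8 * m := by
    rw [S_congr fun e _ => hkv e, S_bs]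
    have : (8 : ℝ) * m = ∑ j ∈ range m, 8 := by simp [mul_comm]
    rw [this]
    refine sum_le_sum fun j hj => ?_
    rw [mem_range] at hj
    obtain ⟨g1, g2, g3⟩ := hl j hj
    have hb4 : ∀ w, b (4 * m + w) = false := fun w => hb0 _ (by omega)
    have k1 : b (cl j).1.1 = !x (cl j).1.1 := if_pos g1
    have k2 : b (cl j).2.1.1 = !x (cl j).2.1.1 := if_pos g2
    have k3 : b (cl j).2.2.1 = !x (cl j).2.2.1 := if_pos g3
    have k4 : b (3 * m + j) = τ j := by
      simp only [b]
      rw [if_neg (by omega), if_pos (by omega)]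
      congr 1
      omega
    have h := hτ j hj
    have h' : (cA (!x (cl j).1.1) (!x (cl j).2.1.1) (!x (cl j).2.2.1) (τ j)
        (cl j).1.2 (cl j).2.1.2 (cl j).2.2.2 false : ℝ) +
      (cB (!x (cl j).1.1) (!x (cl j).2.1.1) (!x (cl j).2.2.1) (τ j)
        (cl j).1.2 (cl j).2.1.2 (cl j).2.2.2 false : ℝ) +
      (cG (!x (cl j).1.1) (!x (cl j).2.1.1) (!x (cl j).2.2.1) (τ j)
        (!x (cl j).1.1) (!x (cl j).2.1.1) (!x (cl j).2.2.1) (τ j)
        (cl j).1.2 (cl j).2.1.2 (cl j).2.2.2 : ℝ) ≤ 8 := by exact_mod_cast h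
    refine le_trans (le_of_eq ?_) h'
    simp only [gad, tg2, S_cons, S_nil, hb4, k1, k2, k3, k4, cA, cB, cG]
    push_cast
    ring
  have hg : (0 : ℝ) ≤ g := Nat.cast_nonneg g
  have h4 := mul_le_mul_of_nonneg_left h3 hg
  rw [h2, add_zero]
  linarith

end Pool.Agent.K6.H49.UGB
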