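import Pool.Agent.K6.H49.UGQ.Bas
import Pool.Agent.H243R3.PCP.Walk
import Pool.Agent.H243R3.PCP.Xr

/-!
# Explicit expanders as lists of pairs
-/

set_option autoImplicit false

open Finset

namespace Pool.Agent.K6.H49.UGB

open Pool.Agent.K6.H49.UGQ (S S_nil S_cons S_append S_add S_sub S_mul S_sum S_congr S_le S_nonneg
  S_map S_cs S_split)
open Pool.Agent.H243R3.PCP

theorem S_flatMap {α β : Type} (F : β → ℝ) (g : α → List β) (l : List α) :
    S F (l.flatMap g) = S (fun a => S F (g a)) l := by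
  induction l with
  | nil => rfl
  | cons a l ih => rw [List.flatMap_cons, S_append, ih, S_cons]

theorem S_range (F : ℕ → ℝ) (n : ℕ) : S F (List.range n) = ∑ i ∈ range n, F i := by
  induction n with
  | zero => simp [S]
  | succ n ih => rw [List.range_succ, S_append, ih, sum_range_succ, S_cons, S_nil, add_zero]

/-- A `D`-regular list of pairs of numbers below `m` with second singular value at most
`lam * D`. -/
structure Reg (m D : ℕ) (lam : ℝ) (X : List (ℕ × ℕ)) : Prop where
  lt : ∀ p ∈ X, p.1 < m ∧ p.2 < m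
  left : ∀ h : ℕ → ℝ, S (fun p => h p.1) X = D * ∑ v ∈ range m, h v
  right : ∀ h : ℕ → ℝ, S (fun p => h p.2) X = D * ∑ v ∈ range m, h v
  nonneg : 0 ≤ lam
  mix : ∀ f g : ℕ → ℝ, ∑ v ∈ range m, f v = 0 → ∑ v ∈ range m, g v = 0 →
    |S (fun p => f p.1 * g p.2) X| ≤
      lam * D * (√(∑ v ∈ range m, f v ^ 2) * √(∑ v ∈ range m, g v ^ 2))

/-! ### Walks in the explicit expanders -/

/-- The lazy expander on `m` vertices. -/
def rt (m v i : ℕ) : ℕ × ℕ := if i < 32 then xrot m v i else (v, i)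

theorem isExp_rt {m : ℕ} (hm : 1 ≤ m) : IsExp m 32 104 (rt m) := by
  refine ⟨⟨?_, ?_, ?_⟩, ?_, by norm_num, ?_⟩
  · intro v hv i hi
    unfold rt
    split_ifs with h
    · exact (xrot_lt hv h).1
    · exact hv
  · intro v hv i hi
    unfold rt
    split_ifs with h
    · have := (xrot_lt hv h).2
      omega
    · exact hi
  · intro v hv i hi
    by_cases h : i < 32
    · have h1 := (xrot_lt hv h).2
      have e1 : rt m v i = xrot m v i := if_pos h
      rw [e1]
      unfold rt
      rw [if_pos h1]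
      exact xrot_xrot hv h
    · have e1 : rt m v i = (v, i) := if_neg h
      rw [e1]
      exact e1
  · intro v _ i hi _
    exact if_neg (by omega)
  · intro f hf
    obtain ⟨c, hc⟩ := poincare_x m hm f
    have h1 : ∑ v ∈ range m, f v ^ 2 ≤ ∑ v ∈ range m, (f v - c) ^ 2 := by
      have : ∑ v ∈ range m, (f v - c) ^ 2 = ∑ v ∈ range m, f v ^ 2 -
          2 * c * ∑ v ∈ range m, f v + m * c ^ 2 := by
        rw [mul_sum, ← sum_sub_distrib]
        have : (m : ℝ) * c ^ 2 = ∑ _v ∈ range m, c ^ 2 := by simp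
        rw [this, ← sum_add_distrib]
        exact sum_congr rfl fun v _ => by ring
      rw [this, hf]
      have : 0 ≤ (m : ℝ) * c ^ 2 := by positivity
      linarith
    refine h1.trans (hc.trans (le_of_eq ?_))
    refine congrArg (fun z : ℝ => 104 * z) ?_
    refine sum_congr rfl fun v _ => sum_congr rfl fun l hl => ?_
    rw [mem_range] at hl
    unfold rt
    rw [if_pos hl]

/-- The pairs of the ends of the walks with `t` steps. -/
def wk (m : ℕ) : ℕ → List (ℕ × ℕ)
  | 0 => (List.range m).map fun v => (v, v)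
  | t + 1 => (wk m t).flatMap fun p => (List.range 64).map fun l => (p.1, (rt m p.2 l).1)

theorem wk_lt {m : ℕ} (hm : 1 ≤ m) (t : ℕ) : ∀ p ∈ wk m t, p.1 < m ∧ p.2 < m := by
  induction t with
  | zero =>
    intro p hp
    simp only [wk, List.mem_map, List.mem_range] at hp
    obtain ⟨v, hv, rfl⟩ := hp
    exact ⟨hv, hv⟩
  | succ t ih =>
    intro p hp
    simp only [wk, List.mem_flatMap, List.mem_map, List.mem_range] at hp
    obtain ⟨a, ha, l, hl, rfl⟩ := hp
    have h1 := ih a ha
    exact ⟨h1.1, (isExp_rt hm).isrot.lt1 _ h1.2 _ (by omega)⟩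

theorem S_wk (m t : ℕ) (f : ℕ → ℝ) : ∀ g : ℕ → ℝ, S (fun p => f p.1 * g p.2) (wk m t) =
    ∑ v ∈ range m, f v * adjn (rt m) (2 * 32) g t v := by
  induction t with
  | zero =>
    intro g
    rw [wk, S_map, S_range]
    rfl
  | succ t ih =>
    intro g
    have h1 : S (fun p => f p.1 * g p.2) (wk m (t + 1)) =
        S (fun p => f p.1 * adj (rt m) (2 * 32) g p.2) (wk m t) := by
      rw [wk, S_flatMap]
      refine S_congr fun p _ => ?_
      rw [S_map, S_range, adj, mul_sum]
    rw [h1, ih]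
    refine sum_congr rfl fun v _ => ?_
    congr 1

theorem adjn_one (m t : ℕ) : ∀ v, adjn (rt m) (2 * 32) (fun _ => 1) t v = (64 : ℝ) ^ t := by
  induction t with
  | zero => intro v; simp [adjn]
  | succ t ih =>
    intro v
    rw [adjn_succ, adj, sum_congr rfl fun i _ => ih _]
    simp only [sum_const, card_range, nsmul_eq_mul]
    push_cast
    ring

theorem sum_adjn {m : ℕ} (hm : 1 ≤ m) (t : ℕ) (g : ℕ → ℝ) :
    ∑ v ∈ range m, adjn (rt m) (2 * 32) g t v = (64 : ℝ) ^ t * ∑ v ∈ range m, g v := by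
  induction t with
  | zero => simp [adjn]
  | succ t ih =>
    simp only [adjn_succ]
    rw [sum_adj (isExp_rt hm).isrot, ih]
    push_cast
    ring

/-- The contraction factor of one step. -/
noncomputable def l0 : ℝ := lam 32 104

theorem l0_val : l0 = 1 - 1 / 26624 := by
  unfold l0 lam
  norm_num

theorem reg_wk {m : ℕ} (hm : 1 ≤ m) (t : ℕ) : Reg m (64 ^ t) (l0 ^ t) (wk m t) := by
  have hl : 0 ≤ l0 := by rw [l0_val]; norm_num
  refine ⟨wk_lt hm t, fun h => ?_, fun h => ?_, by positivity, fun f g hf hg => ?_⟩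
  · have h1 := S_wk m t h (fun _ => 1)
    simp only [mul_one] at h1
    rw [h1, sum_congr rfl fun v _ => by rw [adjn_one], ← sum_mul]
    push_cast
    ring
  · have h1 := S_wk m t (fun _ => 1) h
    simp only [one_mul] at h1
    rw [h1, sum_adjn hm]
    push_cast
    ring
  · rw [S_wk]
    have h1 := ((isExp_rt hm).contract_n (by norm_num) g hg t).2
    have h2 : |∑ v ∈ range m, f v * adjn (rt m) (2 * 32) g t v| ≤
        √(∑ v ∈ range m, f v ^ 2) * √(∑ v ∈ range m, adjn (rt m) (2 * 32) g t v ^ 2) := by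
      rw [← Real.sqrt_mul (sum_nonneg fun _ _ => sq_nonneg _)]
      refine Real.abs_le_sqrt ?_
      exact sum_mul_sq_le_sq_mul_sq _ _ _
    refine h2.trans ?_
    have h3 : √(∑ v ∈ range m, adjn (rt m) (2 * 32) g t v ^ 2) ≤
        (64 ^ t * l0 ^ t) * √(∑ v ∈ range m, g v ^ 2) := by
      have h4 : (0 : ℝ) ≤ 64 ^ t * l0 ^ t := by positivity
      rw [← Real.sqrt_sq h4, ← Real.sqrt_mul (sq_nonneg _)]
      refine Real.sqrt_le_sqrt ?_
      refine h1.trans (le_of_eq ?_)
      unfold l0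
      norm_num
    calc _ ≤ √(∑ v ∈ range m, f v ^ 2) * ((64 ^ t * l0 ^ t) * √(∑ v ∈ range m, g v ^ 2)) :=
          mul_le_mul_of_nonneg_left h3 (Real.sqrt_nonneg _)
      _ = _ := by push_cast; ring

/-- Few pairs between two points. -/
theorem Reg.pt {m D : ℕ} {lm : ℝ} {X : List (ℕ × ℕ)} (h : Reg m D lm X) {u v : ℕ} (hu : u < m)
    (hv : v < m) : S (fun p => if p.1 = u ∧ p.2 = v then (1 : ℝ) else 0) X ≤
      D * (1 / m + lm) := by
  have hm : (0 : ℝ) < m := by exact_mod_cast (by omega : 0 < m)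
  set f : ℕ → ℝ := fun w => (if w = u then 1 else 0) - 1 / m with hf
  set g : ℕ → ℝ := fun w => (if w = v then 1 else 0) - 1 / m with hg
  have hs : ∀ u : ℕ, u < m → ∑ w ∈ range m, ((if w = u then (1 : ℝ) else 0) - 1 / m) = 0 := by
    intro u hu
    rw [sum_sub_distrib, sum_ite_eq', if_pos (mem_range.2 hu), sum_const, card_range, nsmul_eq_mul]
    field_simp
    ring
  have hq : ∀ u : ℕ, u < m → ∑ w ∈ range m, ((if w = u then (1 : ℝ) else 0) - 1 / m) ^ 2 ≤ 1 := by
    intro u hu
    have h1 : ∀ w ∈ range m, ((if w = u then (1 : ℝ) else 0) - 1 / m) ^ 2 =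
        (if w = u then (1 : ℝ) else 0) - 2 / m * (if w = u then 1 else 0) + 1 / m ^ 2 := by
      intro w _
      split_ifs <;> ring
    rw [sum_congr rfl h1, sum_add_distrib, sum_sub_distrib, ← mul_sum, sum_ite_eq',
      if_pos (mem_range.2 hu), sum_const, card_range, nsmul_eq_mul]
    have h2 : (m : ℝ) * (1 / m ^ 2) = 1 / m := by field_simp
    rw [h2]
    have h3 : 0 < 1 / (m : ℝ) := by positivity
    have h4 : 2 / (m : ℝ) = 2 * (1 / m) := by ring
    rw [h4]
    linarith
  have h1 := h.mix f g (hs u hu) (hs v hv)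
  have h2 : √(∑ v ∈ range m, f v ^ 2) * √(∑ v ∈ range m, g v ^ 2) ≤ 1 := by
    have a1 : √(∑ v ∈ range m, f v ^ 2) ≤ 1 := by
      rw [Real.sqrt_le_one]
      exact hq u hu
    have a2 : √(∑ v ∈ range m, g v ^ 2) ≤ 1 := by
      rw [Real.sqrt_le_one]
      exact hq v hv
    exact mul_le_one₀ a1 (Real.sqrt_nonneg _) a2
  have h3 : |S (fun p => f p.1 * g p.2) X| ≤ lm * D := by
    refine h1.trans ?_
    have := mul_le_mul_of_nonneg_left h2 (mul_nonneg h.nonneg (Nat.cast_nonneg D))
    linarith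
  have h4 : S (fun p => f p.1 * g p.2) X = S (fun p => if p.1 = u ∧ p.2 = v then (1 : ℝ) else 0) X -
      D / m := by
    have e1 : S (fun p => f p.1 * g p.2) X = S (fun p =>
        ((if p.1 = u ∧ p.2 = v then (1 : ℝ) else 0) - (1 / m) * (if p.1 = u then 1 else 0)) -
        (1 / m) * ((if p.2 = v then 1 else 0) - 1 / m)) X := by
      refine S_congr fun p _ => ?_
      simp only [hf, hg]
      by_cases a1 : p.1 = u <;> by_cases a2 : p.2 = v <;> simp [a1, a2] <;> ring
    rw [e1, S_sub, S_sub, S_mul, S_mul, h.left fun w => if w = u then 1 else 0,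
      h.right fun w => (if w = v then 1 else 0) - 1 / m, hs v hv, sum_ite_eq',
      if_pos (mem_range.2 hu)]
    ring
  rw [h4] at h3
  have h5 := (abs_le.1 h3).2
  have h6 : (D : ℝ) * (1 / m + lm) = D / m + lm * D := by ring
  rw [h6]
  linarith

end Pool.Agent.K6.H49.UGB
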