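import Pool.Agent.K6.H49.UGB.Gam

/-!
# The choice of the parameters
-/

set_option autoImplicit false

open Finset

namespace Pool.Agent.K6.H49.UGB

open Pool.Agent.NPC
open Pool.Agent.K6.H49.UGX (Edge Game IsUnique Regular SecondLE numSat ValGE ValLE Fm)
open Pool.Agent.H243R3.TP (Clause occ)

/-- A number of steps after which the contraction factor is small. -/
def c0 : ℕ := 26624 * 5

theorem l0_pos : 0 < l0 := by rw [l0_val]; norm_num

theorem l0_lt : l0 < 1 := by rw [l0_val]; norm_num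

theorem l0_c0 : l0 ^ c0 ≤ 1 / 64 := by
  unfold c0
  rw [pow_mul]
  have h1 : l0 ≤ Real.exp (-(1 / 26624)) := by
    rw [l0_val]
    have := Real.add_one_le_exp (-(1 / 26624 : ℝ))
    linarith
  have h2 : l0 ^ 26624 ≤ Real.exp (-1) := by
    refine (pow_le_pow_left₀ l0_pos.le h1 26624).trans (le_of_eq ?_)
    rw [← Real.exp_nat_mul]
    congr 1
    norm_num
  have h3 : Real.exp (-1) ≤ 1 / 2.7 := by
    rw [Real.exp_neg, ← one_div]
    refine one_div_le_one_div_of_le (by norm_num) ?_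
    have := Real.exp_one_gt_d9
    linarith
  calc (l0 ^ 26624) ^ 5 ≤ (1 / 2.7) ^ 5 :=
        pow_le_pow_left₀ (pow_nonneg l0_pos.le _) (h2.trans h3) 5
    _ ≤ 1 / 64 := by norm_num

/-- The choice of the number of the steps. -/
theorem choose_t : ∃ c : ℕ, ∀ a : ℝ, 0 < a → a < 1 → ∃ t : ℕ, l0 ^ t ≤ a ∧ 1 / a ≤ 64 ^ t ∧
    (64 : ℝ) ^ t ≤ 64 * (1 / a) ^ c := by
  classical
  refine ⟨c0, fun a ha ha1 => ?_⟩
  have hex : ∃ t : ℕ, l0 ^ t ≤ a := by
    obtain ⟨t, ht⟩ := exists_pow_lt_of_lt_one ha l0_lt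
    exact ⟨t, ht.le⟩
  refine ⟨Nat.find hex, Nat.find_spec hex, ?_, ?_⟩
  · have h1 := Nat.find_spec hex
    set t := Nat.find hex
    have h2 : (1 : ℝ) ≤ (64 * l0) ^ t := one_le_pow₀ (by rw [l0_val]; norm_num)
    rw [mul_pow] at h2
    rw [div_le_iff₀ ha]
    exact h2.trans (mul_le_mul_of_nonneg_left h1 (by positivity))
  · have h1 : 0 < Nat.find hex := by
      rw [Nat.pos_iff_ne_zero]
      intro h
      have := Nat.find_spec hex
      rw [h, pow_zero] at this
      linarith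
    have h2 := Nat.find_min hex (m := Nat.find hex - 1) (by omega)
    push Not at h2
    set t := Nat.find hex with ht
    obtain ⟨r, hr⟩ : ∃ r, t = r + 1 := ⟨t - 1, by omega⟩
    have h2' : a < l0 ^ r := by
      have : t - 1 = r := by omega
      rwa [this] at h2
    rw [hr, pow_succ]
    have h3 : (64 : ℝ) ^ r ≤ (1 / a) ^ c0 := by
      have h4 : (64 : ℝ) ^ r ≤ ((1 / l0) ^ c0) ^ r := by
        refine pow_le_pow_left₀ (by norm_num) ?_ r
        rw [one_div, inv_pow, ← one_div, le_div_iff₀ (pow_pos l0_pos _)]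
        have := l0_c0
        linarith
      refine h4.trans ?_
      rw [← pow_mul, mul_comm, pow_mul]
      refine pow_le_pow_left₀ (by have := l0_pos; positivity) ?_ c0
      rw [one_div, inv_pow, ← one_div]
      exact one_div_le_one_div_of_le ha h2'.le
    linarith

/-- The real inequalities behind the choice of `s`. -/
theorem choose_s {B K D g σ ε C l : ℝ} (hB : 1 ≤ B) (hK : 1 ≤ K) (hD : 0 < D) (hg : 0 < g)
    (hσ : 0 < σ) (hσ1 : σ ≤ 1) (hε : 0 < ε) (hC : 1792 * B * K ≤ C) (hCε : C * ε ≤ σ)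
    (hg1 : 8 * B * g ≤ σ * D / 4) (hg2 : σ * D ≤ 64 * B * g) (hl : l ≤ σ / (128 * B * K)) :
    ∃ s : ℕ, 2 ≤ s ∧ 1 / (s : ℝ) ≤ 1 / 20 ∧ D + g ≤ ε * (s * (D + 4 * B * g)) ∧
      (1 + σ / C) * (ε * (s * (2 * D + 8 * B * g))) ≤
        (2 - (1 / s + l)) * D + 2 * g + g / K := by
  have hBK : 1 ≤ B * K := by nlinarith
  have hC0 : 0 < C := by linarith
  have hden : 0 < ε * (D + 4 * B * g) := by positivity
  have hεC : ε ≤ σ / C := by rw [le_div_iff₀ hC0]; linarith
  have hC1 : σ / C ≤ 1 / 1792 := by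
    rw [div_le_iff₀ hC0]
    linarith
  have hσC0 : 0 < σ / C := by positivity
  have hDg : D + 4 * B * g ≤ 2 * D := by nlinarith
  have hgD : g ≤ D / 32 := by nlinarith
  obtain ⟨s, h1, h2⟩ : ∃ s : ℕ, D + g ≤ s * (ε * (D + 4 * B * g)) ∧
      s * (ε * (D + 4 * B * g)) ≤ D + g + ε * (D + 4 * B * g) := by
    refine ⟨⌈(D + g) / (ε * (D + 4 * B * g))⌉₊, ?_, ?_⟩
    · rw [← div_le_iff₀ hden]
      exact Nat.le_ceil _
    · have h := (Nat.ceil_lt_add_one (by positivity : 0 ≤ (D + g) / (ε * (D + 4 * B * g)))).le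
      have h2 := mul_le_mul_of_nonneg_right h hden.le
      have h3 : ((D + g) / (ε * (D + 4 * B * g)) + 1) * (ε * (D + 4 * B * g)) =
          (D + g) + ε * (D + 4 * B * g) := by field_simp
      linarith
  -- s is large
  have hsε : 1 / 2 ≤ s * ε := by
    have h3 : (s : ℝ) * (ε * (D + 4 * B * g)) ≤ s * ε * (2 * D) := by
      have := mul_le_mul_of_nonneg_left hDg (by positivity : 0 ≤ (s : ℝ) * ε)
      linarith
    have h4 : D * (1 / 2) * 2 ≤ D * (s * ε) * 2 := by linarith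
    have h5 : D * (1 / 2) ≤ D * (s * ε) := by linarith
    exact le_of_mul_le_mul_left h5 hD
  have hs0 : (0 : ℝ) < s := by
    by_contra h
    push Not at h
    have : (s : ℝ) * ε ≤ 0 := mul_nonpos_of_nonpos_of_nonneg h hε.le
    linarith
  have hs1 : 1 / (s : ℝ) ≤ 2 * (σ / C) := by
    rw [div_le_iff₀ hs0]
    have := mul_le_mul_of_nonneg_left hεC hs0.le
    linarith
  refine ⟨s, ?_, by linarith, by linarith, ?_⟩
  · have h3 : (2 : ℝ) ≤ s := by
      have h4 : 1 / (s : ℝ) ≤ 1 / 2 := by linarith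
      rw [div_le_div_iff₀ hs0 (by norm_num)] at h4
      linarith
    exact_mod_cast h3
  · -- the error terms
    have a1 : ε * (s * (2 * D + 8 * B * g)) ≤ 2 * (D + g) + 2 * (ε * (D + 4 * B * g)) := by
      linarith
    have a2 : ε * (D + 4 * B * g) ≤ σ / C * (2 * D) :=
      mul_le_mul hεC hDg (by positivity) hσC0.le
    have a3 : (1 + σ / C) * (ε * (s * (2 * D + 8 * B * g))) ≤
        2 * (D + g) + 4 * (σ / C * (2 * D)) + σ / C * (2 * (D + g)) := by
      have b1 : (1 + σ / C) * (ε * (s * (2 * D + 8 * B * g))) ≤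
          (1 + σ / C) * (2 * (D + g) + 2 * (σ / C * (2 * D))) :=
        mul_le_mul_of_nonneg_left (by linarith) (by linarith)
      have b2 : σ / C * (2 * (σ / C * (2 * D))) ≤ 1 * (2 * (σ / C * (2 * D))) :=
        mul_le_mul_of_nonneg_right (by linarith) (by positivity)
      nlinarith
    have a4 : σ / C * (2 * (D + g)) ≤ 4 * (σ / C * D) := by
      have := mul_le_mul_of_nonneg_left hgD hσC0.le
      have h0 : 0 < σ / C * D := by positivity
      linarith
    have a5 : 1 / (s : ℝ) * D ≤ 2 * (σ / C) * D := mul_le_mul_of_nonneg_right hs1 hD.le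
    have a6 : l * D ≤ σ / (128 * B * K) * D := mul_le_mul_of_nonneg_right hl hD.le
    have a7 : 14 * (σ / C * D) ≤ σ / (128 * B * K) * D := by
      have : 14 * (σ / C) ≤ σ / (128 * B * K) := by
        rw [mul_div_assoc', div_le_div_iff₀ hC0 (by positivity)]
        nlinarith
      have := mul_le_mul_of_nonneg_right this hD.le
      linarith
    have a8 : 2 * (σ / (128 * B * K) * D) ≤ g / K := by
      have : 2 * (σ / (128 * B * K) * D) = (σ * D) / (64 * B) / K := by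
        field_simp
        ring
      rw [this]
      refine div_le_div_of_nonneg_right ?_ (by linarith)
      rw [div_le_iff₀ (by positivity)]
      linarith
    linarith

/-- **Hardness on expanders of bounded degree, for every number of labels.** -/
theorem main : ∃ C : ℕ, 0 < C ∧ ∀ σ : ℝ, 0 < σ → σ ≤ 1 → ∃ d : ℕ, (d : ℝ) ≤ (C / σ) ^ C ∧
    ∀ ε : ℝ, 0 < ε → C * ε ≤ σ → ∀ q : ℕ, 2 ≤ q →
    ∀ L : Set (List Bool), InNP L → ∃ f : List Bool → List Bool, PolyTime f ∧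
      ∀ x, ∃ G : Game, f x = bits G ∧ IsUnique q G ∧ Regular G d ∧
        SecondLE G (σ * d) ∧ (x ∈ L → ValGE q G (1 - ε)) ∧
        (x ∉ L → ValLE q G (1 - (1 + σ / C) * ε)) := by
  obtain ⟨B, hBdef, hB1⟩ : ∃ B : ℕ, H243R3.PCP.Bd ≤ B ∧ 1 ≤ B :=
    ⟨H243R3.PCP.Bd + 1, Nat.le_succ _, Nat.succ_le_succ (Nat.zero_le _)⟩
  obtain ⟨K, hKdef, hK1⟩ : ∃ K : ℕ, DP.K0 ≤ K ∧ 1 ≤ K :=
    ⟨DP.K0 + 1, Nat.le_succ _, Nat.succ_le_succ (Nat.zero_le _)⟩
  obtain ⟨c, hct⟩ := choose_t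
  have hBR : (1 : ℝ) ≤ B := by exact_mod_cast hB1
  have hKR : (1 : ℝ) ≤ K := by exact_mod_cast hK1
  obtain ⟨C, hCdef⟩ : ∃ C : ℕ, C = 12288 * B * K + (2 * c + 1) := ⟨_, rfl⟩
  have hCR : (C : ℝ) = 12288 * B * K + (2 * c + 1) := by rw [hCdef]; push_cast; ring
  have hBK : (1 : ℝ) ≤ B * K := by nlinarith
  have hc0 : (0 : ℝ) ≤ c := Nat.cast_nonneg _
  have hC1 : (1792 : ℝ) * B * K ≤ C := by rw [hCR]; nlinarith
  have hC2 : (12288 : ℝ) ≤ C := by rw [hCR]; nlinarith
  have hC3 : (128 : ℝ) * B * K ≤ C := by rw [hCR]; nlinarith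
  refine ⟨C, by rw [hCdef]; exact Nat.succ_pos _, fun σ hσ hσ1 => ?_⟩
  -- the number of the steps
  have ha : 0 < σ / (128 * B * K) := by positivity
  have ha1 : σ / (128 * B * K) ≤ 1 / 128 := by
    rw [div_le_div_iff₀ (by positivity) (by norm_num)]
    nlinarith
  obtain ⟨t, ht1, ht2, ht3⟩ := hct _ ha (by linarith)
  have hinv : 1 / (σ / (128 * (B : ℝ) * K)) = 128 * B * K / σ := by
    rw [one_div_div]
  rw [hinv] at ht2 ht3
  obtain ⟨D, hDdef⟩ : ∃ D : ℕ, D = 64 ^ t * 64 ^ t := ⟨_, rfl⟩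
  have hDR : (D : ℝ) = 64 ^ t * 64 ^ t := by rw [hDdef]; push_cast; ring
  have hD0 : (0 : ℝ) < D := by rw [hDR]; positivity
  have h64 : (1 : ℝ) ≤ 64 ^ t := one_le_pow₀ (by norm_num)
  have hD1 : 128 * (B : ℝ) * K / σ ≤ D := by
    rw [hDR]
    calc 128 * (B : ℝ) * K / σ ≤ 64 ^ t := ht2
      _ = 1 * 64 ^ t := (one_mul _).symm
      _ ≤ 64 ^ t * 64 ^ t := mul_le_mul_of_nonneg_right h64 (by positivity)
  have hD2 : 32 * (B : ℝ) ≤ σ * D := by
    rw [div_le_iff₀ hσ] at hD1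
    nlinarith
  -- the multiplicity of the gadgets
  obtain ⟨g, hg1, hg2, hg0⟩ : ∃ g : ℕ, (8 : ℝ) * B * g ≤ σ * D / 4 ∧ σ * D ≤ 64 * B * g ∧ 0 < g := by
    have hfl : 0 < ⌊σ * D / (32 * B)⌋₊ := by
      rw [Nat.floor_pos, le_div_iff₀ (by positivity)]
      linarith
    refine ⟨⌊σ * D / (32 * B)⌋₊, ?_, ?_, hfl⟩
    · have := Nat.floor_le (by positivity : 0 ≤ σ * (D : ℝ) / (32 * B))
      rw [le_div_iff₀ (by positivity)] at this
      linarith
    · have h1 := (Nat.lt_floor_add_one (σ * (D : ℝ) / (32 * B))).le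
      rw [div_le_iff₀ (by positivity)] at h1
      have h2 : (1 : ℝ) ≤ (⌊σ * D / (32 * B)⌋₊ : ℕ) := by exact_mod_cast hfl
      nlinarith
  have hg0R : (0 : ℝ) < g := by exact_mod_cast hg0
  refine ⟨2 * (64 ^ t * 64 ^ t) + 8 * B * g, ?_, ?_⟩
  · -- the bound for the degree
    have e1 : ((2 * (64 ^ t * 64 ^ t) + 8 * B * g : ℕ) : ℝ) = 2 * D + 8 * B * g := by
      rw [hDR]; push_cast; ring
    rw [e1]
    have h1 : 2 * (D : ℝ) + 8 * B * g ≤ 3 * D := by nlinarith
    have h2 : (D : ℝ) ≤ (64 * (128 * B * K / σ) ^ c) * (64 * (128 * B * K / σ) ^ c) := by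
      rw [hDR]
      exact mul_le_mul ht3 ht3 (by positivity) (by positivity)
    have h3 : (128 * (B : ℝ) * K / σ) ≤ C / σ := div_le_div_of_nonneg_right hC3 hσ.le
    have h4 : (1 : ℝ) ≤ C / σ := by
      rw [le_div_iff₀ hσ]
      linarith
    have h5 : (12288 : ℝ) ≤ C / σ := by
      rw [le_div_iff₀ hσ]
      nlinarith
    calc 2 * (D : ℝ) + 8 * B * g ≤ 3 * D := h1
      _ ≤ 3 * ((64 * (128 * B * K / σ) ^ c) * (64 * (128 * B * K / σ) ^ c)) := by linarith
      _ = 12288 * (128 * B * K / σ) ^ (2 * c) := by ring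
      _ ≤ (C / σ) * (C / σ) ^ (2 * c) := by
          refine mul_le_mul h5 (pow_le_pow_left₀ (by positivity) h3 _) (by positivity)
            (by positivity)
      _ = (C / σ) ^ (2 * c + 1) := by rw [pow_succ]; ring
      _ ≤ (C / σ) ^ C := pow_le_pow_right₀ h4 (by rw [hCdef]; exact Nat.le_add_left _ _)
  intro ε hε hCε q hq L hL
  obtain ⟨s, hs, hs20, p1, p2⟩ := choose_s (l := l0 ^ t) hBR hKR hD0 hg0R hσ hσ1 hε hC1 hCε hg1 hg2
    ht1
  obtain ⟨f, hf, hfx⟩ := DP.gap3Sat hL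
  have hpc : PC (fun x : List Bool => x) (bits : Game → List Bool)
      (fun x => gam q g s B t (f x)) :=
    PC.comp (eb := (bits : Fm → List Bool)) (poly_gam q g s B t) hf
  refine ⟨fun x => bits (gam q g s B t (f x)), PC.toPolyTime hpc, fun x => ?_⟩
  obtain ⟨hne, hbd, hyes, hno⟩ := hfx x
  beta_reduce
  generalize f x = φ at hne hbd hyes hno ⊢
  have hb : ∀ v, (occ φ).count v ≤ B := fun v => (hbd v).trans hBdef
  have hm : 0 < φ.length := List.length_pos_iff.2 hne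
  have hmR : (0 : ℝ) < φ.length := by exact_mod_cast hm
  have hlen := length_gam (q := q) (g := g) (t := t) hne hs hb hB1
  rw [← hDR] at hlen
  have hl128 : l0 ^ t ≤ 1 / 128 := ht1.trans ha1
  refine ⟨gam q g s B t φ, rfl, gam_unique hq hne hs hb hB1, gam_regular hne hs hb hB1, ?_,
    fun hx => ?_, fun hx => ?_⟩
  · intro y y' hy hy'
    refine (gam_second (q := q) (g := g) (t := t) hne hs hb hB1 y y' hy hy').trans
      (mul_le_mul_of_nonneg_right ?_ (by positivity))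
    rw [← hDR]
    have e1 : ((2 * (64 ^ t * 64 ^ t) + 8 * B * g : ℕ) : ℝ) = 2 * D + 8 * B * g := by
      rw [hDR]; push_cast; ring
    rw [e1]
    have h1 : 2 * l0 ^ t * (D : ℝ) ≤ 2 * (σ / (128 * B * K)) * D := by
      have := mul_le_mul_of_nonneg_right ht1 hD0.le
      linarith
    have h2 : σ / (128 * B * K) ≤ σ / 128 := by
      refine div_le_div_of_nonneg_left hσ.le (by norm_num) ?_
      nlinarith
    have h3 := mul_le_mul_of_nonneg_right h2 hD0.le
    have h4 : 0 ≤ σ * (8 * B * g) := by positivity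
    nlinarith
  · obtain ⟨A, _, _, hA⟩ := hyes hx
    obtain ⟨y, hy⟩ := gam_yes (q := q) (g := g) (s := s) (B := B) (t := t) hq hne hs A hA
    refine ⟨y, y, ?_⟩
    rw [← hDR] at hy
    generalize (numSat (gam q g s B t φ) y y : ℝ) = V at hy ⊢
    generalize ((gam q g s B t φ).2.length : ℝ) = E at hlen hy ⊢
    have h1 := mul_le_mul_of_nonneg_left p1 (by positivity : (0 : ℝ) ≤ 8 * φ.length)
    have h2 : ε * E = 8 * φ.length * (ε * (s * (D + 4 * B * g))) := by
      rw [hlen]; ring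
    have h3 : (1 - ε) * E = E - ε * E := by ring
    rw [h3, h2]
    linarith
  · intro y y'
    obtain ⟨u, hu1, hu2⟩ : ∃ u : ℕ, φ.length ≤ K * u ∧ ∀ t : ℕ, φ.length ≤ K * t → u ≤ t := by
      refine ⟨Nat.find (p := fun u => φ.length ≤ K * u)
        ⟨φ.length, Nat.le_mul_of_pos_left _ hK1⟩, Nat.find_spec (p := fun u => φ.length ≤ K * u)
        ⟨φ.length, Nat.le_mul_of_pos_left _ hK1⟩, fun t ht => Nat.find_min' _ ht⟩
    have hg := gam_no (q := q) (g := g) (s := s) (t := t) (K := K) (u := u) hq hne hs hb hB1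
      (by linarith) (by rw [← hDR]; nlinarith) (fun A => by
        refine (hno hx A).trans (Nat.mul_le_mul_right _ hKdef)) hu2 y y'
    rw [← hDR] at hg
    generalize (numSat (gam q g s B t φ) y y' : ℝ) = V at hg ⊢
    generalize ((gam q g s B t φ).2.length : ℝ) = E at hlen hg ⊢
    have hu' : (φ.length : ℝ) ≤ K * u := by exact_mod_cast hu1
    have hKp : (0 : ℝ) < K := by linarith
    have hu'' : (φ.length : ℝ) * (g / K) ≤ g * u := by
      rw [mul_div_assoc', div_le_iff₀ hKp]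
      nlinarith
    have h1 := mul_le_mul_of_nonneg_left p2 (by positivity : (0 : ℝ) ≤ 4 * φ.length)
    have h2 : (1 + σ / C) * ε * E = 4 * φ.length * ((1 + σ / C) *
        (ε * (s * (2 * D + 8 * B * g)))) := by
      rw [hlen]; ring
    have h3 : (1 - (1 + σ / C) * ε) * E = E - (1 + σ / C) * ε * E := by ring
    rw [h3, h2]
    linarith

end Pool.Agent.K6.H49.UGB
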