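import Pool.Agent.K6.H49.UGB.Cst
import Pool.Agent.K6.H49.UGX.Pol
import Pool.Agent.H243R3.PCP.PolyS

/-!
# The games, and their computation in polynomial time
-/

set_option autoImplicit false

open Finset

namespace Pool.Agent.K6.H49.UGB

open Pool.Agent.NPC
open Pool.Agent.K6.H49.UGQ (S S_nil S_cons S_append S_add S_sub S_mul S_sum S_congr S_le S_nonneg
  S_map S_cs S_split)
open Pool.Agent.K6.H49.UGX (SE Cl gad cnt mul Low Tru unsat Edge Game IsUnique Regular SecondLE
  numSat ValGE ValLE Fm cls low_cls cnt_cls_le unsat_cls uPoly_len poly_cls poly_gad poly_cnt)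
open Pool.Agent.H243R3.TP (Clause occ)

/-- The table of the kind `k`. -/
def tq (q k : ℕ) : List ℕ := (List.range q).map (ap q k)

def toE (q : ℕ) (e : KE) : Edge := (e.1, e.2.1, tq q e.2.2)

theorem ap_lt {q : ℕ} (hq : 2 ≤ q) (k : ℕ) {i : ℕ} (hi : i < q) : ap q k i < q := by
  unfold ap
  split_ifs <;> omega

theorem ap_inj {q : ℕ} (k : ℕ) {i j : ℕ} (hi : i < q) (hj : j < q) (h : ap q k i = ap q k j) :
    i = j := by
  unfold ap at h
  split_ifs at h <;> omega

theorem tq_ok {q : ℕ} (hq : 2 ≤ q) (k : ℕ) : (tq q k).length = q ∧ (tq q k).Nodup ∧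
    ∀ b ∈ tq q k, b < q := by
  unfold tq
  refine ⟨by simp, ?_, ?_⟩
  · refine List.Nodup.map_on ?_ List.nodup_range
    intro x hx y hy hxy
    rw [List.mem_range] at hx hy
    exact ap_inj k hx hy hxy
  · intro b hb
    rw [List.mem_map] at hb
    obtain ⟨i, hi, rfl⟩ := hb
    exact ap_lt hq k (List.mem_range.1 hi)

theorem numSat_kv {q : ℕ} (n : ℕ) (l : List KE) (f g : ℕ → Fin q) :
    (numSat (n, l.map (toE q)) f g : ℝ) + S (kv q (fun u => (f u : ℕ)) (fun u => (g u : ℕ))) l =
      l.length := by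
  unfold numSat
  simp only
  induction l with
  | nil => simp [S]
  | cons e l ih =>
    rw [S_cons, List.map_cons, List.countP_cons, List.length_cons]
    push_cast
    rw [← ih]
    have h1 : (tq q e.2.2)[((f e.1 : Fin q) : ℕ)]? = some (ap q e.2.2 (f e.1)) := by
      unfold tq
      rw [List.getElem?_map, List.getElem?_range (f e.1).2]
      rfl
    have h2 : ((if decide ((toE q e).2.2[((f (toE q e).1 : Fin q) : ℕ)]? =
        some ((g (toE q e).2.1 : Fin q) : ℕ)) = true then 1 else 0 : ℕ) : ℝ) +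
        kv q (fun u => (f u : ℕ)) (fun u => (g u : ℕ)) e = 1 := by
      unfold toE kv kc
      simp only [h1, Option.some.injEq, decide_eq_true_eq]
      split_ifs <;> simp
    push_cast at h2
    linarith

theorem countP_ir (l : List KE) (q u : ℕ) :
    (((l.map (toE q)).countP fun e => decide (e.1 = u) : ℕ) : ℝ) = S (fun e => ir (e.1 = u)) l ∧
    (((l.map (toE q)).countP fun e => decide (e.2.1 = u) : ℕ) : ℝ) =
      S (fun e => ir (e.2.1 = u)) l := by
  induction l with
  | nil => simp [S]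
  | cons e l ih =>
    rw [S_cons, S_cons, List.map_cons, List.countP_cons, List.countP_cons, ← ih.1, ← ih.2]
    unfold ir toE
    simp only [decide_eq_true_eq]
    push_cast
    exact ⟨by split_ifs <;> ring, by split_ifs <;> ring⟩

/-- The game of a formula. -/
noncomputable def gam (q g s B t : ℕ) (φ : Fm) : Game :=
  (s * (4 * φ.length), (all g (s * (4 * φ.length)) φ.length B (cls φ)
    (prd (4 * φ.length) (wk (4 * φ.length) t) (wk s t))).map (toE q))

section Game

variable {q g s B t : ℕ} {φ : Fm}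

theorem host_gam (hφ : φ ≠ []) (hs : 2 ≤ s) :
    Host (s * (4 * φ.length)) (4 * φ.length) (64 ^ t * 64 ^ t) (l0 ^ t) (1 / s + l0 ^ t)
      (prd (4 * φ.length) (wk (4 * φ.length) t) (wk s t)) := by
  have hm : 0 < φ.length := List.length_pos_iff.2 hφ
  exact host_prd (by omega) hs (reg_wk (by omega) t) (reg_wk (by omega) t) (by positivity)
    (by positivity)

theorem length_gam (hφ : φ ≠ []) (hs : 2 ≤ s) (hb : ∀ v, (occ φ).count v ≤ B) (hB : 1 ≤ B) :
    ((gam q g s B t φ).2.length : ℝ) = (s * (4 * φ.length)) * (2 * (64 ^ t * 64 ^ t) + 8 * B * g) := by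
  have hH := host_gam (t := t) hφ hs
  have hn : 8 * φ.length ≤ s * (4 * φ.length) := by
    calc 8 * φ.length = 2 * (4 * φ.length) := by ring
      _ ≤ s * (4 * φ.length) := Nat.mul_le_mul_right _ hs
  unfold gam
  simp only [List.length_map]
  set l := all g (s * (4 * φ.length)) φ.length B (cls φ)
    (prd (4 * φ.length) (wk (4 * φ.length) t) (wk s t)) with hl
  have h1 : (l.length : ℝ) = S (fun _ => (1 : ℝ)) l := by simp [S]
  rw [h1, S_split (n := s * (4 * φ.length)) (fun e : KE => e.1)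
    (fun e he => (all_lt hH.reg (low_cls φ) hn he).1)]
  have h2 : ∀ u ∈ range (s * (4 * φ.length)), S (fun e : KE => if e.1 = u then (1 : ℝ) else 0) l =
      2 * (64 ^ t * 64 ^ t) + 8 * B * g := by
    intro u hu
    have := (deg_all (g := g) (B := B) hH.reg (low_cls φ) (fun w hw => cnt_cls_le hb hB hw)
      (mem_range.1 hu)).1
    unfold ir at this
    rw [this]
    push_cast
    ring
  rw [sum_congr rfl h2, sum_const, card_range, nsmul_eq_mul]
  push_cast
  ring

theorem gam_unique (hq : 2 ≤ q) (hφ : φ ≠ []) (hs : 2 ≤ s) (hb : ∀ v, (occ φ).count v ≤ B)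
    (hB : 1 ≤ B) : IsUnique q (gam q g s B t φ) := by
  have hH := host_gam (t := t) hφ hs
  have hm : 0 < φ.length := List.length_pos_iff.2 hφ
  have hn : 8 * φ.length ≤ s * (4 * φ.length) := by
    calc 8 * φ.length = 2 * (4 * φ.length) := by ring
      _ ≤ s * (4 * φ.length) := Nat.mul_le_mul_right _ hs
  refine ⟨?_, fun e he => ?_⟩
  · have h1 := length_gam (q := q) (g := g) (t := t) hφ hs hb hB
    intro h0
    rw [h0] at h1
    have h2 : (0 : ℝ) < (s * (4 * φ.length)) * (2 * (64 ^ t * 64 ^ t) + 8 * B * g) := by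
      have : (0 : ℝ) < s := by exact_mod_cast (by omega : 0 < s)
      have : (0 : ℝ) < φ.length := by exact_mod_cast hm
      positivity
    simp only [List.length_nil, Nat.cast_zero] at h1
    linarith
  · obtain ⟨e', he', rfl⟩ := List.mem_map.1 he
    obtain ⟨h1, h2⟩ := all_lt hH.reg (low_cls φ) hn he'
    exact ⟨h1, h2, tq_ok hq e'.2.2⟩

theorem gam_regular (hφ : φ ≠ []) (hs : 2 ≤ s) (hb : ∀ v, (occ φ).count v ≤ B) (hB : 1 ≤ B) :
    Regular (gam q g s B t φ) (2 * (64 ^ t * 64 ^ t) + 8 * B * g) := by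
  have hH := host_gam (t := t) hφ hs
  intro u hu
  have h1 := deg_all (g := g) (B := B) hH.reg (low_cls φ) (fun w hw => cnt_cls_le hb hB hw) hu
  have h2 := countP_ir (all g (s * (4 * φ.length)) φ.length B (cls φ)
    (prd (4 * φ.length) (wk (4 * φ.length) t) (wk s t))) q u
  rw [h1.1, h1.2] at h2
  exact ⟨by exact_mod_cast h2.1, by exact_mod_cast h2.2⟩

theorem gam_second (hφ : φ ≠ []) (hs : 2 ≤ s) (hb : ∀ v, (occ φ).count v ≤ B) (hB : 1 ≤ B) :
    SecondLE (gam q g s B t φ) (2 * l0 ^ t * (64 ^ t * 64 ^ t) + 8 * B * g) := by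
  have hH := host_gam (t := t) hφ hs
  have hn : 8 * φ.length ≤ s * (4 * φ.length) := by
    calc 8 * φ.length = 2 * (4 * φ.length) := by ring
      _ ≤ s * (4 * φ.length) := Nat.mul_le_mul_right _ hs
  intro x y hx hy
  have h1 := second (g := g) (B := B) hH.reg (low_cls φ) (fun w hw => cnt_cls_le hb hB hw) hn x y
    hx hy
  have h2 : ((gam q g s B t φ).2.map fun e => x e.1 * y e.2.1).sum =
      S (fun e => x e.1 * y e.2.1) (all g (s * (4 * φ.length)) φ.length B (cls φ)
        (prd (4 * φ.length) (wk (4 * φ.length) t) (wk s t))) := by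
    unfold gam S
    rw [List.map_map]
    rfl
  rw [h2]
  push_cast at h1
  exact h1

/-- The number of the pairs with a vertex of the formula. -/
theorem W0_le {n m D : ℕ} {lm θ : ℝ} {P : List (ℕ × ℕ)} (h : Host n m D lm θ P) :
    W0 m P ≤ 2 * D * m ∧ (2 - θ) * D * m ≤ W0 m P := by
  have hmn : m ≤ n := by have := h.le; omega
  have hs : ∑ u ∈ range n, ir (u < m) = m := by
    have : ∑ u ∈ range n, ir (u < m) = ∑ u ∈ range m, (1 : ℝ) := by
      rw [← sum_subset (range_subset_range.2 hmn) fun u _ hu => ?_]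
      · exact sum_congr rfl fun u hu => if_pos (mem_range.1 hu)
      · rw [mem_range] at hu
        exact if_neg hu
    rw [this]
    simp
  have h1 := h.reg.left fun u => ir (u < m)
  have h2 := h.reg.right fun u => ir (u < m)
  have h3 := few_left h (b := fun u => ir (u < m)) (fun u => by unfold ir; split_ifs <;> norm_num)
  rw [hs] at h1 h2 h3
  have h4 : W0 m P = S (fun p : ℕ × ℕ => ir (p.1 < m)) P + S (fun p : ℕ × ℕ => ir (p.2 < m)) P -
      S (fun p : ℕ × ℕ => ir (p.2 < m) * ir (p.1 < m)) P := by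
    unfold W0
    rw [← S_add, ← S_sub]
    refine S_congr fun p _ => ?_
    unfold ir
    by_cases h1 : p.1 < m <;> by_cases h2 : p.2 < m <;> simp [h1, h2]
  have h5 : 0 ≤ S (fun p : ℕ × ℕ => ir (p.2 < m) * ir (p.1 < m)) P :=
    S_nonneg fun p _ => by unfold ir; split_ifs <;> norm_num
  rw [h4, h1, h2]
  constructor
  · linarith
  · linarith

theorem gam_yes (hq : 2 ≤ q) (hφ : φ ≠ []) (hs : 2 ≤ s) (A : List ℕ)
    (hA : H243R3.TP.numSat φ A = φ.length) : ∃ f : ℕ → Fin q,
      ((gam q g s B t φ).2.length : ℝ) ≤ numSat (gam q g s B t φ) f f +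
        8 * φ.length * ((64 ^ t * 64 ^ t) + g) := by
  have hH := host_gam (t := t) hφ hs
  have hx := unsat_cls φ (fun w => decide ((occ φ).getD w 0 ∈ A)) A fun v hv => by
    rw [decide_eq_true_eq]
    have := getElem?_index hv
    rw [List.getD_eq_getElem?_getD, this]
    rfl
  have h0 : unsat φ.length (cls φ) (fun w => decide ((occ φ).getD w 0 ∈ A)) = 0 := by omega
  obtain ⟨f, hf, hc⟩ := cost_yes (P := prd (4 * φ.length) (wk (4 * φ.length) t) (wk s t))
    (low_cls φ) g (s * (4 * φ.length)) B hq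
    (x := fun w => decide ((occ φ).getD w 0 ∈ A)) (fun j hj => by
      by_contra hc
      unfold unsat at h0
      rw [sum_eq_zero_iff] at h0
      have := h0 j (mem_range.2 hj)
      rw [if_neg hc] at this
      exact one_ne_zero this)
  refine ⟨fun u => ⟨f u, hf u⟩, ?_⟩
  have h1 := numSat_kv (q := q) (s * (4 * φ.length)) (all g (s * (4 * φ.length)) φ.length B (cls φ)
    (prd (4 * φ.length) (wk (4 * φ.length) t) (wk s t))) (fun u => ⟨f u, hf u⟩)
    (fun u => ⟨f u, hf u⟩)
  have h2 := (W0_le hH).1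
  unfold gam
  rw [List.length_map]
  push_cast at h2
  linarith

theorem gam_no (hq : 2 ≤ q) (hφ : φ ≠ []) (hs : 2 ≤ s) (hb : ∀ v, (occ φ).count v ≤ B)
    (hB : 1 ≤ B) (hθ : 1 / s + l0 ^ t ≤ 1 / 10)
    (hD : (8 : ℝ) * B * g ≤ 1 / 4 * (64 ^ t * 64 ^ t)) {K u : ℕ}
    (hK : ∀ A, φ.length ≤ K * (φ.length - H243R3.TP.numSat φ A))
    (hu : ∀ t : ℕ, φ.length ≤ K * t → u ≤ t) (f f' : ℕ → Fin q) :
    (numSat (gam q g s B t φ) f f' : ℝ) + (4 * φ.length * ((2 - (1 / s + l0 ^ t)) *
      (64 ^ t * 64 ^ t) + 2 * g) + 4 * g * u) ≤ (gam q g s B t φ).2.length := by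
  have hH := host_gam (t := t) hφ hs
  have h1 := numSat_kv (q := q) (s * (4 * φ.length)) (all g (s * (4 * φ.length)) φ.length B (cls φ)
    (prd (4 * φ.length) (wk (4 * φ.length) t) (wk s t))) f f'
  have h2 := (W0_le hH).2
  have hl : 0 ≤ l0 ^ t := hH.reg.nonneg
  have hs0 : (0 : ℝ) < 1 / s := by
    have : (0 : ℝ) < s := by exact_mod_cast (by omega : 0 < s)
    positivity
  have h3 := cost_no (g := g) hH (low_cls φ) (fun w hw => cnt_cls_le hb hB hw) (by
      refine hD.trans ?_
      push_cast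
      exact mul_le_mul_of_nonneg_right (by linarith) (by positivity)) hθ (by linarith)
    (u := u) (fun x => by
      have hx := unsat_cls φ x ((occ φ).filter fun v => x (index (occ φ) v)) fun v hv => by
        rw [List.mem_filter]
        exact ⟨fun h => h.2, fun h => ⟨hv, h⟩⟩
      refine hu _ ?_
      have h3 := hK ((occ φ).filter fun v => x (index (occ φ) v))
      have h4 : φ.length - H243R3.TP.numSat φ ((occ φ).filter fun v => x (index (occ φ) v)) =
        unsat φ.length (cls φ) x := by omega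
      rwa [h4] at h3) hq (f := fun u => (f u : ℕ)) (f' := fun u => (f' u : ℕ))
    (fun u => (f u).2) (fun u => (f' u).2)
  unfold gam
  rw [List.length_map]
  push_cast at h2
  nlinarith

end Game

/-! ### Polynomial time -/

section Pol

variable {α : Type} [TEnc α]

theorem poly_rt {m v i : α → ℕ} (hm : UPoly m) (hv : Poly v) (hi : Poly i) :
    Poly (fun a => rt (m a) (v a) (i a)) := by
  unfold rt
  exact Poly.ite (Poly.decide_lt hi (NPC.Poly.const 32)) (DP.poly_xrot hm hv hi)
    (Poly.pair hv hi)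

theorem poly_wk {m : α → ℕ} (hm : UPoly m) (t : ℕ) : Poly (fun a => wk (m a) t) := by
  induction t with
  | zero =>
    unfold wk
    exact NPC.Poly.map (F := fun (_ : α) (v : ℕ) => (v, v)) hm.range (by fun_prop)
  | succ t ih =>
    have h1 : Poly (fun p : α × (ℕ × ℕ) => (List.range 64).map fun l =>
        (p.2.1, (rt (m p.1) p.2.2 l).1)) := by
      refine NPC.Poly.map (F := fun (p : α × (ℕ × ℕ)) (l : ℕ) =>
        (p.2.1, (rt (m p.1) p.2.2 l).1)) (NPC.Poly.const _) ?_
      refine Poly.pair (by fun_prop) (Poly.fst ?_)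
      exact poly_rt (hm.comp (Poly.fst (Poly.fst Poly.id))) (by fun_prop) (by fun_prop)
    exact NPC.Poly.flatMap (F := fun (a : α) (p : ℕ × ℕ) => (List.range 64).map fun l =>
      (p.1, (rt (m a) p.2 l).1)) ih h1

theorem poly_prd {m : α → ℕ} {X Y : α → List (ℕ × ℕ)} (hm : Poly m) (hX : Poly X) (hY : Poly Y) :
    Poly (fun a => prd (m a) (X a) (Y a)) := by
  unfold prd
  refine NPC.Poly.flatMap (F := fun (a : α) (p : ℕ × ℕ) => (Y a).map fun b =>
    (b.1 * m a + p.1, b.2 * m a + p.2)) hX ?_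
  refine NPC.Poly.map (F := fun (p : α × (ℕ × ℕ)) (b : ℕ × ℕ) =>
    (b.1 * m p.1 + p.2.1, b.2 * m p.1 + p.2.2)) (by fun_prop) ?_
  fun_prop

theorem poly_hst {m : α → ℕ} {P : α → List (ℕ × ℕ)} (hm : Poly m) (hP : Poly P) :
    Poly (fun a => hst (m a) (P a)) := by
  unfold hst
  refine NPC.Poly.flatMap (F := fun (a : α) (p : ℕ × ℕ) => pr (m a) p) hP ?_
  unfold pr
  have h1 : Poly (fun p : α × (ℕ × ℕ) => if p.2.1 < m p.1 ∨ p.2.2 < m p.1 then 1 else 2) := by
    refine Poly.ite (Poly.decide_or (Poly.decide_lt ?_ ?_) (Poly.decide_lt ?_ ?_))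
      (NPC.Poly.const 1) (NPC.Poly.const 2) <;> fun_prop
  fun_prop

theorem poly_tg2 {M t : α → ℕ} {c : α → Cl} (hM : Poly M) (ht : Poly t) (hc : Poly c) :
    Poly (fun a => tg2 (M a) (t a) (c a)) := by
  unfold tg2
  fun_prop

attribute [local fun_prop] poly_cls poly_cnt

theorem poly_bs : Poly (fun φ : Fm => bs φ.length (cls φ)) := by
  unfold bs
  refine NPC.Poly.flatMap (F := fun (φ : Fm) (j : ℕ) =>
    gad (3 * φ.length + j) (cls φ j) ++ tg2 (4 * φ.length) (3 * φ.length + j) (cls φ j))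
    uPoly_len.range ?_
  exact Poly.append (poly_gad (by fun_prop) (by fun_prop))
    (poly_tg2 (by fun_prop) (by fun_prop) (by fun_prop))

theorem poly_dgr {φ : α → Fm} {u : α → ℕ} (hφ : Poly φ) (hu : Poly u) :
    Poly (fun a => dgr (φ a).length (cls (φ a)) (u a)) := by
  unfold dgr
  refine Poly.ite (Poly.decide_lt ?_ ?_) ?_ (Poly.ite (Poly.decide_lt ?_ ?_) ?_ ?_) <;> fun_prop

theorem poly_lp (s B : ℕ) : Poly (fun φ : Fm => lp (s * (4 * φ.length)) φ.length B (cls φ)) := by
  unfold lp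
  refine NPC.Poly.flatMap (F := fun (φ : Fm) (u : ℕ) =>
    (List.range (8 * B - dgr φ.length (cls φ) u)).map fun _ => (u, u, false))
    (UPoly.mul (UPoly.const s) (UPoly.mul (UPoly.const 4) uPoly_len)).range ?_
  refine NPC.Poly.map (F := fun (p : Fm × ℕ) (_ : ℕ) => (p.2, p.2, false)) ?_ (by fun_prop)
  refine UPoly.range ?_
  refine UPoly.of_le (n := fun _ => 8 * B) ?_ (UPoly.const _) fun p => Nat.sub_le _ _
  exact Poly.sub (NPC.Poly.const _) (poly_dgr (Poly.fst Poly.id) (Poly.snd Poly.id))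

theorem poly_ge (s B : ℕ) : Poly (fun φ : Fm => ge (s * (4 * φ.length)) φ.length B (cls φ)) := by
  unfold ge
  refine NPC.Poly.map (F := fun (_ : Fm) (e : SE) => toK e) (Poly.append poly_bs (poly_lp s B)) ?_
  unfold toK
  refine Poly.pair (by fun_prop) (Poly.pair (by fun_prop) (Poly.ite ?_ (NPC.Poly.const 1)
    (NPC.Poly.const 0)))
  fun_prop

theorem poly_all (g s B t : ℕ) : Poly (fun φ : Fm => all g (s * (4 * φ.length)) φ.length B (cls φ)
    (prd (4 * φ.length) (wk (4 * φ.length) t) (wk s t))) := by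
  unfold all
  refine Poly.append (poly_hst (by fun_prop) (poly_prd (by fun_prop)
    (poly_wk (UPoly.mul (UPoly.const 4) uPoly_len) t) (NPC.Poly.const _))) ?_
  exact NPC.Poly.flatMap (F := fun (φ : Fm) (_ : ℕ) => ge (s * (4 * φ.length)) φ.length B (cls φ))
    (NPC.Poly.const _) ((poly_ge s B).comp (Poly.fst Poly.id))

theorem poly_gam (q g s B t : ℕ) : Poly (gam q g s B t) := by
  unfold gam
  refine Poly.pair ?_ ?_
  · exact (UPoly.mul (UPoly.const s) (UPoly.mul (UPoly.const 4) uPoly_len)).toPoly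
  · refine NPC.Poly.map (F := fun (_ : Fm) (e : KE) => toE q e) (poly_all g s B t) ?_
    unfold toE tq
    refine Poly.pair (by fun_prop) (Poly.pair (by fun_prop) ?_)
    refine NPC.Poly.map (F := fun (p : Fm × KE) (i : ℕ) => ap q p.2.2.2 i) (NPC.Poly.const _) ?_
    unfold ap
    refine Poly.ite (by fun_prop) (by fun_prop) (Poly.ite (by fun_prop) (Poly.ite (by fun_prop)
      (by fun_prop) (Poly.ite (by fun_prop) (by fun_prop) (by fun_prop)))
      (Poly.ite (by fun_prop) (by fun_prop) (Poly.ite (Poly.decide_lt (by fun_prop) (by fun_prop))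
        (by fun_prop) (by fun_prop))))

end Pol

end Pool.Agent.K6.H49.UGB
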