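import Pool.Agent.K6.H49.UGB.Prd
import Pool.Agent.K6.H49.UGX.Viol

/-!
# The instance of bounded degree
-/

set_option autoImplicit false

open Finset

namespace Pool.Agent.K6.H49.UGB

open Pool.Agent.K6.H49.UGQ (S S_nil S_cons S_append S_add S_sub S_mul S_sum S_congr S_le S_nonneg
  S_map S_cs S_split)
open Pool.Agent.K6.H49.UGX (SE Cl gad cnt mul Low vc cA cB cG jA jB jG clause_ge Tru unsat lft
  gadget_ub cnt_eq')

/-- A constraint: the left vertex, the right vertex, the kind. -/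
abbrev KE : Type := ℕ × ℕ × ℕ

/-- The map of the kind `k` on the labels: the identity, the transposition of `0` and `1`, the
cycle of the labels other than `0`. -/
def ap (q k i : ℕ) : ℕ :=
  if k = 0 then i
  else if k = 1 then (if i = 0 then 1 else if i = 1 then 0 else i)
  else (if i = 0 then 0 else if i + 1 < q then i + 1 else 1)

/-- The two constraints of a pair of vertices. -/
def pr (m : ℕ) (p : ℕ × ℕ) : List KE :=
  [(p.1, p.2, 0), (p.1, p.2, if p.1 < m ∨ p.2 < m then 1 else 2)]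

/-- The constraints of the host graph. -/
def hst (m : ℕ) (P : List (ℕ × ℕ)) : List KE := P.flatMap (pr m)

def toK (e : SE) : KE := (e.1, e.2.1, if e.2.2 = true then 1 else 0)

/-- The constraints between the vertices of a clause and their partners. -/
def tg2 (M t : ℕ) (c : Cl) : List SE :=
  [(c.1.1, M + c.1.1, !c.1.2), (M + c.1.1, c.1.1, !c.1.2), (c.2.1.1, M + c.2.1.1, !c.2.1.2),
    (M + c.2.1.1, c.2.1.1, !c.2.1.2), (c.2.2.1, M + c.2.2.1, !c.2.2.2),
    (M + c.2.2.1, c.2.2.1, !c.2.2.2), (t, M + t, true), (M + t, t, true)]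

/-- The constraints of the clauses. -/
def bs (m : ℕ) (cl : ℕ → Cl) : List SE :=
  (List.range m).flatMap fun j => gad (3 * m + j) (cl j) ++ tg2 (4 * m) (3 * m + j) (cl j)

/-- The degrees in the constraints of the clauses. -/
def dgr (m : ℕ) (cl : ℕ → Cl) (u : ℕ) : ℕ :=
  if u < 4 * m then 8 * cnt m cl u else if u < 8 * m then cnt m cl (u - 4 * m) else 0

/-- The loops. -/
def lp (n m B : ℕ) (cl : ℕ → Cl) : List SE :=
  (List.range n).flatMap fun u => (List.range (8 * B - dgr m cl u)).map fun _ => (u, u, false)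

/-- The constraints of the clauses and the loops. -/
def ge (n m B : ℕ) (cl : ℕ → Cl) : List KE := (bs m cl ++ lp n m B cl).map toK

/-- All constraints. -/
def all (g n m B : ℕ) (cl : ℕ → Cl) (P : List (ℕ × ℕ)) : List KE :=
  hst (4 * m) P ++ (List.range g).flatMap fun _ => ge n m B cl

theorem S_all (F : KE → ℝ) (g n m B : ℕ) (cl : ℕ → Cl) (P : List (ℕ × ℕ)) :
    S F (all g n m B cl P) = S (fun p => S F (pr (4 * m) p)) P + g * (S (fun e => F (toK e))
      (bs m cl) + S (fun e => F (toK e)) (lp n m B cl)) := by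
  unfold all hst ge
  rw [S_append, S_flatMap, S_flatMap, S_range, S_map, S_append]
  simp
  ring

theorem S_bs (F : SE → ℝ) (m : ℕ) (cl : ℕ → Cl) : S F (bs m cl) =
    ∑ j ∈ range m, (S F (gad (3 * m + j) (cl j)) + S F (tg2 (4 * m) (3 * m + j) (cl j))) := by
  unfold bs
  rw [S_flatMap, S_range]
  exact sum_congr rfl fun j _ => S_append _ _ _

theorem S_lp (F : SE → ℝ) (n m B : ℕ) (cl : ℕ → Cl) : S F (lp n m B cl) =
    ∑ u ∈ range n, ((8 * B - dgr m cl u : ℕ) : ℝ) * F (u, u, false) := by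
  unfold lp
  rw [S_flatMap, S_range]
  refine sum_congr rfl fun u _ => ?_
  rw [S_map, S_range]
  simp

/-! ### Degrees -/

/-- The indicator as a real number. -/
def ir (p : Prop) [Decidable p] : ℝ := if p then 1 else 0

theorem mul_real (t : ℕ) (c : Cl) (w : ℕ) : ((mul t c w : ℕ) : ℝ) =
    ir (c.1.1 = w) + ir (c.2.1.1 = w) + ir (c.2.2.1 = w) + ir (t = w) := by
  unfold mul ir
  push_cast
  rfl

theorem bs_left {m : ℕ} {cl : ℕ → Cl} (hl : Low m cl) (u : ℕ) :
    S (fun e => ir (e.1 = u)) (bs m cl) = dgr m cl u := by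
  rw [S_bs]
  unfold dgr
  rcases Nat.lt_or_ge u (4 * m) with hu | hu
  · rw [if_pos hu, cnt_eq']
    push_cast
    rw [mul_sum]
    refine sum_congr rfl fun j _ => ?_
    rw [mul_real]
    simp only [gad, tg2, S_cons, S_nil]
    have h0 : ∀ w, ir (4 * m + w = u) = 0 := fun w => if_neg (by omega)
    simp only [h0]
    ring
  · rw [if_neg (by omega)]
    have h1 : ∀ j ∈ range m, (S (fun e : SE => ir (e.1 = u)) (gad (3 * m + j) (cl j)) +
        S (fun e : SE => ir (e.1 = u)) (tg2 (4 * m) (3 * m + j) (cl j))) =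
        (mul (3 * m + j) (cl j) (u - 4 * m) : ℕ) := by
      intro j hj
      rw [mem_range] at hj
      obtain ⟨g1, g2, g3⟩ := hl j hj
      rw [mul_real]
      simp only [gad, tg2, S_cons, S_nil]
      have h0 : ∀ w, w < 4 * m → ir (w = u) = 0 := fun w hw => if_neg (by omega)
      have h2 : ∀ w, ir (4 * m + w = u) = ir (w = u - 4 * m) := fun w => by
        unfold ir
        congr 1
        exact propext ⟨fun h => by omega, fun h => by omega⟩
      simp only [h0 _ (show (cl j).1.1 < 4 * m by omega), h0 _ (show (cl j).2.1.1 < 4 * m by omega),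
        h0 _ (show (cl j).2.2.1 < 4 * m by omega), h0 _ (show 3 * m + j < 4 * m by omega), h2]
      ring
    rw [sum_congr rfl h1]
    split_ifs with h8
    · rw [cnt_eq']
      push_cast
      rfl
    · push_cast
      refine sum_eq_zero fun j hj => ?_
      rw [mem_range] at hj
      obtain ⟨g1, g2, g3⟩ := hl j hj
      rw [mul_real]
      unfold ir
      rw [if_neg (by omega), if_neg (by omega), if_neg (by omega), if_neg (by omega)]
      norm_num

theorem bs_right {m : ℕ} {cl : ℕ → Cl} (hl : Low m cl) (u : ℕ) :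
    S (fun e => ir (e.2.1 = u)) (bs m cl) = dgr m cl u := by
  rw [← bs_left hl, S_bs, S_bs]
  refine sum_congr rfl fun j _ => ?_
  simp only [gad, tg2, S_cons, S_nil]
  ring

theorem dgr_le {m B : ℕ} {cl : ℕ → Cl} (hB : ∀ w < 4 * m, cnt m cl w ≤ B) (u : ℕ) :
    dgr m cl u ≤ 8 * B := by
  unfold dgr
  split_ifs with h1 h2
  · have := hB u h1
    omega
  · have := hB (u - 4 * m) (by omega)
    omega
  · omega

theorem lp_deg (n m B : ℕ) (cl : ℕ → Cl) {u : ℕ} (hu : u < n) :
    S (fun e => ir (e.1 = u)) (lp n m B cl) = ((8 * B - dgr m cl u : ℕ) : ℝ) ∧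
    S (fun e => ir (e.2.1 = u)) (lp n m B cl) = ((8 * B - dgr m cl u : ℕ) : ℝ) := by
  have h : ∑ w ∈ range n, ((8 * B - dgr m cl w : ℕ) : ℝ) * ir (w = u) =
      ((8 * B - dgr m cl u : ℕ) : ℝ) := by
    unfold ir
    simp only [mul_ite, mul_one, mul_zero]
    rw [sum_ite_eq', if_pos (mem_range.2 hu)]
  rw [S_lp, S_lp]
  exact ⟨h, h⟩

/-- All vertices have the same degree. -/
theorem deg_all {g n m B D : ℕ} {cl : ℕ → Cl} {P : List (ℕ × ℕ)} {lm : ℝ} (hP : Reg n D lm P)
    (hl : Low m cl) (hB : ∀ w < 4 * m, cnt m cl w ≤ B) {u : ℕ} (hu : u < n) :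
    S (fun e => ir (e.1 = u)) (all g n m B cl P) = 2 * D + 8 * B * g ∧
    S (fun e => ir (e.2.1 = u)) (all g n m B cl P) = 2 * D + 8 * B * g := by
  have hd := dgr_le hB u
  have h0 : ((8 * B - dgr m cl u : ℕ) : ℝ) = 8 * B - dgr m cl u := by
    rw [Nat.cast_sub hd]
    push_cast
    ring
  rw [S_all, S_all]
  have e1 : S (fun p : ℕ × ℕ => S (fun e : KE => ir (e.1 = u)) (pr (4 * m) p)) P = 2 * D := by
    have : S (fun p : ℕ × ℕ => S (fun e : KE => ir (e.1 = u)) (pr (4 * m) p)) P =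
        S (fun p : ℕ × ℕ => 2 * ir (p.1 = u)) P := by
      refine S_congr fun p _ => ?_
      simp only [pr, S_cons, S_nil]
      ring
    rw [this, S_mul, hP.left fun w => ir (w = u)]
    unfold ir
    rw [sum_ite_eq', if_pos (mem_range.2 hu)]
    ring
  have e2 : S (fun p : ℕ × ℕ => S (fun e : KE => ir (e.2.1 = u)) (pr (4 * m) p)) P = 2 * D := by
    have : S (fun p : ℕ × ℕ => S (fun e : KE => ir (e.2.1 = u)) (pr (4 * m) p)) P =
        S (fun p : ℕ × ℕ => 2 * ir (p.2 = u)) P := by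
      refine S_congr fun p _ => ?_
      simp only [pr, S_cons, S_nil]
      ring
    rw [this, S_mul, hP.right fun w => ir (w = u)]
    unfold ir
    rw [sum_ite_eq', if_pos (mem_range.2 hu)]
    ring
  have b1 := bs_left hl u
  have b2 := bs_right hl u
  have l1 := (lp_deg n m B cl hu).1
  have l2 := (lp_deg n m B cl hu).2
  constructor
  · rw [e1]
    have c1 : S (fun e : SE => ir ((toK e).1 = u)) (bs m cl) = dgr m cl u := b1
    have c2 : S (fun e : SE => ir ((toK e).1 = u)) (lp n m B cl) =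
      ((8 * B - dgr m cl u : ℕ) : ℝ) := l1
    rw [c1, c2, h0]
    ring
  · rw [e2]
    have c1 : S (fun e : SE => ir ((toK e).2.1 = u)) (bs m cl) = dgr m cl u := b2
    have c2 : S (fun e : SE => ir ((toK e).2.1 = u)) (lp n m B cl) =
      ((8 * B - dgr m cl u : ℕ) : ℝ) := l2
    rw [c1, c2, h0]
    ring

/-- All ends are vertices. -/
theorem bs_lt {m : ℕ} {cl : ℕ → Cl} (hl : Low m cl) {e : SE} (he : e ∈ bs m cl) :
    e.1 < 8 * m ∧ e.2.1 < 8 * m := by
  simp only [bs, gad, tg2, List.mem_flatMap, List.mem_range, List.mem_append, List.mem_cons,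
    List.not_mem_nil, or_false] at he
  obtain ⟨j, hj, he⟩ := he
  obtain ⟨g1, g2, g3⟩ := hl j hj
  rcases he with (rfl | rfl | rfl | rfl | rfl | rfl | rfl | rfl | rfl | rfl | rfl | rfl |
      rfl | rfl | rfl | rfl | rfl | rfl | rfl | rfl | rfl | rfl | rfl | rfl | rfl | rfl |
      rfl | rfl) | (rfl | rfl | rfl | rfl | rfl | rfl | rfl | rfl) <;>
      exact ⟨by simp only; omega, by simp only; omega⟩

theorem all_lt {g n m B D : ℕ} {cl : ℕ → Cl} {P : List (ℕ × ℕ)} {lm : ℝ} (hP : Reg n D lm P)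
    (hl : Low m cl) (hn : 8 * m ≤ n) {e : KE} (he : e ∈ all g n m B cl P) :
    e.1 < n ∧ e.2.1 < n := by
  simp only [all, hst, ge, pr, List.mem_append, List.mem_flatMap, List.mem_map, List.mem_cons,
    List.not_mem_nil, or_false, List.mem_range] at he
  rcases he with ⟨p, hp, rfl | rfl⟩ | ⟨_, _, e', he' | he', rfl⟩
  · exact hP.lt p hp
  · exact hP.lt p hp
  · have := bs_lt hl he'
    exact ⟨by simp only [toK]; omega, by simp only [toK]; omega⟩
  · simp only [lp, List.mem_flatMap, List.mem_range, List.mem_map] at he'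
    obtain ⟨u, hu, _, _, rfl⟩ := he'
    exact ⟨hu, hu⟩

/-! ### The second singular value -/

theorem bil_deg {α : Type} {n K : ℕ} {l : List α} (p r : α → ℕ) (hp : ∀ e ∈ l, p e < n)
    (hr : ∀ e ∈ l, r e < n)
    (h1 : ∀ u < n, S (fun e => ir (p e = u)) l ≤ K) (h2 : ∀ u < n, S (fun e => ir (r e = u)) l ≤ K)
    (f g : ℕ → ℝ) : |S (fun e => f (p e) * g (r e)) l| ≤
      K * (√(∑ u ∈ range n, f u ^ 2) * √(∑ u ∈ range n, g u ^ 2)) := by
  have key : ∀ (p : α → ℕ), (∀ e ∈ l, p e < n) → (∀ u < n, S (fun e => ir (p e = u)) l ≤ K) →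
      ∀ f : ℕ → ℝ, S (fun e => f (p e) ^ 2) l ≤ K * ∑ u ∈ range n, f u ^ 2 := by
    intro p hp h1 f
    rw [S_split p hp, mul_sum]
    refine sum_le_sum fun u hu => ?_
    have e1 : S (fun e => if p e = u then f (p e) ^ 2 else 0) l =
        S (fun e => f u ^ 2 * ir (p e = u)) l := by
      refine S_congr fun e _ => ?_
      unfold ir
      split_ifs with h
      · rw [h]; ring
      · ring
    rw [e1, S_mul, mul_comm]
    exact mul_le_mul_of_nonneg_right (h1 u (mem_range.1 hu)) (sq_nonneg _)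
  have h3 := S_cs (fun e => f (p e)) (fun e => g (r e)) l
  have h4 := key p hp h1 f
  have h5 := key r hr h2 g
  have h6 : S (fun e => f (p e) * g (r e)) l ^ 2 ≤
      (K * ∑ u ∈ range n, f u ^ 2) * (K * ∑ u ∈ range n, g u ^ 2) :=
    h3.trans (mul_le_mul h4 h5 (S_nonneg fun _ _ => sq_nonneg _) (by positivity))
  have h7 := Real.abs_le_sqrt h6
  refine h7.trans (le_of_eq ?_)
  have h8 : (K * ∑ u ∈ range n, f u ^ 2) * (K * ∑ u ∈ range n, g u ^ 2) =
      (K : ℝ) ^ 2 * ((∑ u ∈ range n, f u ^ 2) * ∑ u ∈ range n, g u ^ 2) := by ring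
  rw [h8, Real.sqrt_mul (by positivity), Real.sqrt_sq (by positivity),
    Real.sqrt_mul (sum_nonneg fun _ _ => sq_nonneg _)]

theorem second {g n m B D : ℕ} {cl : ℕ → Cl} {P : List (ℕ × ℕ)} {lm : ℝ} (hP : Reg n D lm P)
    (hl : Low m cl) (hB : ∀ w < 4 * m, cnt m cl w ≤ B) (hn : 8 * m ≤ n) (x y : ℕ → ℝ)
    (hx : ∑ u ∈ range n, x u = 0) (hy : ∑ u ∈ range n, y u = 0) :
    |S (fun e => x e.1 * y e.2.1) (all g n m B cl P)| ≤ (2 * lm * D + 8 * B * g) *
      (√(∑ u ∈ range n, x u ^ 2) * √(∑ u ∈ range n, y u ^ 2)) := by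
  rw [S_all]
  have e1 : S (fun p : ℕ × ℕ => S (fun e : KE => x e.1 * y e.2.1) (pr (4 * m) p)) P =
      2 * S (fun p : ℕ × ℕ => x p.1 * y p.2) P := by
    rw [← S_mul]
    refine S_congr fun p _ => ?_
    simp only [pr, S_cons, S_nil]
    ring
  rw [e1, ← S_append]
  have h1 := hP.mix x y hx hy
  have h2 := bil_deg (l := bs m cl ++ lp n m B cl) (n := n) (K := 8 * B) (fun e : SE => e.1)
    (fun e : SE => e.2.1) (fun e he => ?_) (fun e he => ?_) (fun u hu => ?_) (fun u hu => ?_) x y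
  · have e2 : S (fun e : SE => x (toK e).1 * y (toK e).2.1) (bs m cl ++ lp n m B cl) =
        S (fun e : SE => x e.1 * y e.2.1) (bs m cl ++ lp n m B cl) := rfl
    rw [e2]
    have hg : (0 : ℝ) ≤ g := Nat.cast_nonneg g
    calc |2 * S (fun p : ℕ × ℕ => x p.1 * y p.2) P +
          g * S (fun e : SE => x e.1 * y e.2.1) (bs m cl ++ lp n m B cl)|
        ≤ 2 * |S (fun p : ℕ × ℕ => x p.1 * y p.2) P| +
          g * |S (fun e : SE => x e.1 * y e.2.1) (bs m cl ++ lp n m B cl)| := by
          refine (abs_add_le _ _).trans ?_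
          rw [abs_mul, abs_mul, abs_of_nonneg hg, abs_of_pos (by norm_num : (0 : ℝ) < 2)]
      _ ≤ 2 * (lm * D * (√(∑ u ∈ range n, x u ^ 2) * √(∑ u ∈ range n, y u ^ 2))) +
          g * (((8 * B : ℕ) : ℝ) * (√(∑ u ∈ range n, x u ^ 2) * √(∑ u ∈ range n, y u ^ 2))) :=
          add_le_add (mul_le_mul_of_nonneg_left h1 (by norm_num)) (mul_le_mul_of_nonneg_left h2 hg)
      _ = _ := by push_cast; ring
  · rcases List.mem_append.1 he with he | he
    · have := bs_lt hl he
      omega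
    · simp only [lp, List.mem_flatMap, List.mem_range, List.mem_map] at he
      obtain ⟨u, hu, _, _, rfl⟩ := he
      exact hu
  · rcases List.mem_append.1 he with he | he
    · have := bs_lt hl he
      omega
    · simp only [lp, List.mem_flatMap, List.mem_range, List.mem_map] at he
      obtain ⟨u, hu, _, _, rfl⟩ := he
      exact hu
  · have h3 : (dgr m cl u : ℝ) + ((8 * B - dgr m cl u : ℕ) : ℝ) = ((8 * B : ℕ) : ℝ) := by
      rw [← Nat.cast_add]
      congr 1
      have := dgr_le hB u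
      omega
    rw [S_append, bs_left hl, (lp_deg n m B cl hu).1, h3]
  · have h3 : (dgr m cl u : ℝ) + ((8 * B - dgr m cl u : ℕ) : ℝ) = ((8 * B : ℕ) : ℝ) := by
      rw [← Nat.cast_add]
      congr 1
      have := dgr_le hB u
      omega
    rw [S_append, bs_right hl, (lp_deg n m B cl hu).2, h3]

end Pool.Agent.K6.H49.UGB
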