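import Pool.Agent.K6.H49.UGB.Ex

/-!
# Products of two expanders
-/

set_option autoImplicit false

open Finset

namespace Pool.Agent.K6.H49.UGB

open Pool.Agent.K6.H49.UGQ (S S_nil S_cons S_append S_add S_sub S_mul S_sum S_congr S_le S_nonneg
  S_map S_cs S_split)

/-- Sums over the pairs of a number below `s` and a number below `m`. -/
theorem sum_pairs (s m : ℕ) (h : ℕ → ℝ) :
    ∑ u ∈ range (s * m), h u = ∑ i ∈ range s, ∑ v ∈ range m, h (i * m + v) := by
  induction s with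
  | zero => simp
  | succ s ih => rw [Nat.succ_mul, sum_range_add, ih, sum_range_succ]

/-- The product of two lists of pairs. -/
def prd (m : ℕ) (X Y : List (ℕ × ℕ)) : List (ℕ × ℕ) :=
  X.flatMap fun a => Y.map fun b => (b.1 * m + a.1, b.2 * m + a.2)

theorem S_prd (m : ℕ) (X Y : List (ℕ × ℕ)) (F : ℕ × ℕ → ℝ) : S F (prd m X Y) =
    S (fun a => S (fun b => F (b.1 * m + a.1, b.2 * m + a.2)) Y) X := by
  unfold prd
  rw [S_flatMap]
  exact S_congr fun a _ => S_map _ _ _

variable {s m DX DY : ℕ} {lm : ℝ} {X Y : List (ℕ × ℕ)}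

theorem cs2 {a b c d : ℝ} (_ha : 0 ≤ a) (_hb : 0 ≤ b) (_hc : 0 ≤ c) (_hd : 0 ≤ d) :
    √a * √b + √c * √d ≤ √(a + c) * √(b + d) := by
  rw [← Real.sqrt_mul (by positivity) (b + d)]
  refine Real.le_sqrt_of_sq_le ?_
  have h1 := Real.sq_sqrt _ha
  have h2 := Real.sq_sqrt _hb
  have h3 := Real.sq_sqrt _hc
  have h4 := Real.sq_sqrt _hd
  have h5 : (√a * √b + √c * √d) ^ 2 = √a ^ 2 * √b ^ 2 + √c ^ 2 * √d ^ 2 +
      2 * ((√a * √d) * (√b * √c)) := by ring
  have h6 : 2 * ((√a * √d) * (√b * √c)) ≤ (√a * √d) ^ 2 + (√b * √c) ^ 2 := by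
    nlinarith [sq_nonneg (√a * √d - √b * √c)]
  rw [h5, h1, h2, h3, h4]
  rw [mul_pow, mul_pow, h1, h2, h3, h4] at h6
  nlinarith

/-- Sums of a bilinear form with values in a product. -/
theorem Reg.vec (h : Reg m DX lm X) (F G : ℕ → ℝ) (hF : ∀ v, 0 ≤ F v) (hG : ∀ v, 0 ≤ G v) :
    S (fun p => √(F p.1) * √(G p.2)) X ≤
      DX * (√(∑ v ∈ range m, F v) * √(∑ v ∈ range m, G v)) := by
  have h1 := S_cs (fun p : ℕ × ℕ => √(F p.1)) (fun p => √(G p.2)) X
  have e1 : S (fun p : ℕ × ℕ => √(F p.1) ^ 2) X = DX * ∑ v ∈ range m, F v := by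
    rw [← h.left F]
    exact S_congr fun p _ => Real.sq_sqrt (hF _)
  have e2 : S (fun p : ℕ × ℕ => √(G p.2) ^ 2) X = DX * ∑ v ∈ range m, G v := by
    rw [← h.right G]
    exact S_congr fun p _ => Real.sq_sqrt (hG _)
  rw [e1, e2] at h1
  have h2 := Real.le_sqrt_of_sq_le h1
  refine h2.trans (le_of_eq ?_)
  have h3 : (DX : ℝ) * (∑ v ∈ range m, F v) * (DX * ∑ v ∈ range m, G v) =
      DX ^ 2 * ((∑ v ∈ range m, F v) * ∑ v ∈ range m, G v) := by ring
  rw [h3, Real.sqrt_mul (by positivity), Real.sqrt_sq (by positivity),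
    Real.sqrt_mul (sum_nonneg fun v _ => hF v)]

theorem reg_prd (hs : 1 ≤ s) (hX : Reg m DX lm X) (hY : Reg s DY lm Y) :
    Reg (s * m) (DX * DY) lm (prd m X Y) := by
  refine ⟨?_, ?_, ?_, hX.nonneg, ?_⟩
  · intro p hp
    simp only [prd, List.mem_flatMap, List.mem_map] at hp
    obtain ⟨a, ha, b, hb, rfl⟩ := hp
    have key : ∀ i v : ℕ, i < s → v < m → i * m + v < s * m := by
      intro i v hi hv
      have : (i + 1) * m ≤ s * m := Nat.mul_le_mul_right _ hi
      have e : (i + 1) * m = i * m + m := by ring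
      omega
    exact ⟨key _ _ (hY.lt b hb).1 (hX.lt a ha).1, key _ _ (hY.lt b hb).2 (hX.lt a ha).2⟩
  · intro h
    rw [S_prd]
    simp only
    have h1 : ∀ a ∈ X, S (fun b : ℕ × ℕ => h (b.1 * m + a.1)) Y =
        DY * ∑ i ∈ range s, h (i * m + a.1) := fun a _ => hY.left fun i => h (i * m + a.1)
    rw [S_congr h1, S_mul, hX.left fun v => ∑ i ∈ range s, h (i * m + v), sum_pairs, sum_comm]
    push_cast
    ring
  · intro h
    rw [S_prd]
    simp only
    have h1 : ∀ a ∈ X, S (fun b : ℕ × ℕ => h (b.2 * m + a.2)) Y =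
        DY * ∑ i ∈ range s, h (i * m + a.2) := fun a _ => hY.right fun i => h (i * m + a.2)
    rw [S_congr h1, S_mul, hX.right fun v => ∑ i ∈ range s, h (i * m + v), sum_pairs, sum_comm]
    push_cast
    ring
  · intro f g hf hg
    rw [S_prd]
    simp only
    have hs0 : (0 : ℝ) < s := by exact_mod_cast hs
    -- averages
    set fb : ℕ → ℝ := fun v => (∑ i ∈ range s, f (i * m + v)) / s with hfb
    set gb : ℕ → ℝ := fun v => (∑ i ∈ range s, g (i * m + v)) / s with hgb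
    set f0 : ℕ → ℕ → ℝ := fun v i => f (i * m + v) - fb v with hf0
    set g0 : ℕ → ℕ → ℝ := fun v i => g (i * m + v) - gb v with hg0
    have zf : ∀ v, ∑ i ∈ range s, f0 v i = 0 := by
      intro v
      simp only [hf0, sum_sub_distrib, sum_const, card_range, nsmul_eq_mul, hfb]
      field_simp
      ring
    have zg : ∀ v, ∑ i ∈ range s, g0 v i = 0 := by
      intro v
      simp only [hg0, sum_sub_distrib, sum_const, card_range, nsmul_eq_mul, hgb]
      field_simp
      ring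
    have sf : ∑ v ∈ range m, fb v = 0 := by
      simp only [hfb]
      rw [← sum_div, sum_comm, ← sum_pairs, hf, zero_div]
    have sg : ∑ v ∈ range m, gb v = 0 := by
      simp only [hgb]
      rw [← sum_div, sum_comm, ← sum_pairs, hg, zero_div]
    -- the inner sums
    have hin : ∀ a ∈ X, S (fun b : ℕ × ℕ => f (b.1 * m + a.1) * g (b.2 * m + a.2)) Y =
        (DY * s) * (fb a.1 * gb a.2) + S (fun b : ℕ × ℕ => f0 a.1 b.1 * g0 a.2 b.2) Y := by
      intro a _
      have e1 : S (fun b : ℕ × ℕ => f (b.1 * m + a.1) * g (b.2 * m + a.2)) Y =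
          S (fun b : ℕ × ℕ => ((fb a.1 * gb a.2) * 1 + gb a.2 * f0 a.1 b.1) +
            (fb a.1 * g0 a.2 b.2 + f0 a.1 b.1 * g0 a.2 b.2)) Y := by
        refine S_congr fun b _ => ?_
        simp only [hf0, hg0]
        ring
      rw [e1, S_add, S_add, S_add, S_mul, S_mul, S_mul, hY.left fun i => f0 a.1 i,
        hY.right fun i => g0 a.2 i, hY.left fun _ => 1, zf, zg]
      simp only [sum_const, card_range, nsmul_eq_mul]
      ring
    rw [S_congr hin, S_add, S_mul]
    -- the two parts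
    have p1 := hX.mix fb gb sf sg
    have p2 : |S (fun a : ℕ × ℕ => S (fun b : ℕ × ℕ => f0 a.1 b.1 * g0 a.2 b.2) Y) X| ≤
        lm * DY * (DX * (√(∑ v ∈ range m, ∑ i ∈ range s, f0 v i ^ 2) *
          √(∑ v ∈ range m, ∑ i ∈ range s, g0 v i ^ 2))) := by
      have h1 : |S (fun a : ℕ × ℕ => S (fun b : ℕ × ℕ => f0 a.1 b.1 * g0 a.2 b.2) Y) X| ≤
          S (fun a : ℕ × ℕ => |S (fun b : ℕ × ℕ => f0 a.1 b.1 * g0 a.2 b.2) Y|) X := by
        rw [abs_le]
        constructor
        · rw [neg_le_iff_add_nonneg, ← S_add]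
          exact S_nonneg fun a _ => by
            have := neg_abs_le (S (fun b : ℕ × ℕ => f0 a.1 b.1 * g0 a.2 b.2) Y)
            linarith
        · exact S_le fun a _ => le_abs_self _
      refine h1.trans ?_
      have h2 : S (fun a : ℕ × ℕ => |S (fun b : ℕ × ℕ => f0 a.1 b.1 * g0 a.2 b.2) Y|) X ≤
          S (fun a : ℕ × ℕ => (lm * DY) * (√(∑ i ∈ range s, f0 a.1 i ^ 2) *
            √(∑ i ∈ range s, g0 a.2 i ^ 2))) X :=
        S_le fun a _ => hY.mix (f0 a.1) (g0 a.2) (zf _) (zg _)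
      refine h2.trans ?_
      rw [S_mul]
      refine mul_le_mul_of_nonneg_left ?_ (mul_nonneg hX.nonneg (Nat.cast_nonneg _))
      exact hX.vec (fun v => ∑ i ∈ range s, f0 v i ^ 2) (fun v => ∑ i ∈ range s, g0 v i ^ 2)
        (fun v => sum_nonneg fun _ _ => sq_nonneg _) (fun v => sum_nonneg fun _ _ => sq_nonneg _)
    -- Pythagoras
    have py : ∀ (f : ℕ → ℝ), ∑ u ∈ range (s * m), f u ^ 2 =
        s * ∑ v ∈ range m, ((∑ i ∈ range s, f (i * m + v)) / s) ^ 2 +
        ∑ v ∈ range m, ∑ i ∈ range s, (f (i * m + v) - (∑ i ∈ range s, f (i * m + v)) / s) ^ 2 := by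
      intro f
      rw [sum_pairs, sum_comm, mul_sum, ← sum_add_distrib]
      refine sum_congr rfl fun v _ => ?_
      set c := (∑ i ∈ range s, f (i * m + v)) / s with hc
      have e1 : ∑ i ∈ range s, f (i * m + v) = s * c := by
        rw [hc]
        field_simp
      have e2 : ∑ i ∈ range s, (f (i * m + v) - c) ^ 2 = ∑ i ∈ range s, f (i * m + v) ^ 2 -
          2 * c * ∑ i ∈ range s, f (i * m + v) + s * c ^ 2 := by
        rw [mul_sum, ← sum_sub_distrib]
        have : (s : ℝ) * c ^ 2 = ∑ _i ∈ range s, c ^ 2 := by simp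
        rw [this, ← sum_add_distrib]
        exact sum_congr rfl fun i _ => by ring
      rw [e2, e1]
      ring
    have pf := py f
    have pg := py g
    rw [pf, pg]
    have n1 : 0 ≤ ∑ v ∈ range m, fb v ^ 2 := sum_nonneg fun _ _ => sq_nonneg _
    have n2 : 0 ≤ ∑ v ∈ range m, gb v ^ 2 := sum_nonneg fun _ _ => sq_nonneg _
    have n3 : 0 ≤ ∑ v ∈ range m, ∑ i ∈ range s, f0 v i ^ 2 :=
      sum_nonneg fun _ _ => sum_nonneg fun _ _ => sq_nonneg _
    have n4 : 0 ≤ ∑ v ∈ range m, ∑ i ∈ range s, g0 v i ^ 2 :=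
      sum_nonneg fun _ _ => sum_nonneg fun _ _ => sq_nonneg _
    have hcs := cs2 (a := s * ∑ v ∈ range m, fb v ^ 2) (b := s * ∑ v ∈ range m, gb v ^ 2)
      (by positivity) (by positivity) n3 n4
    have hss : √((s : ℝ) * ∑ v ∈ range m, fb v ^ 2) * √((s : ℝ) * ∑ v ∈ range m, gb v ^ 2) =
        s * (√(∑ v ∈ range m, fb v ^ 2) * √(∑ v ∈ range m, gb v ^ 2)) := by
      rw [Real.sqrt_mul hs0.le, Real.sqrt_mul hs0.le]
      have := Real.mul_self_sqrt hs0.le
      calc _ = (√(s : ℝ) * √(s : ℝ)) * (√(∑ v ∈ range m, fb v ^ 2) *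
            √(∑ v ∈ range m, gb v ^ 2)) := by ring
        _ = _ := by rw [this]
    rw [hss] at hcs
    have hDY : (0 : ℝ) ≤ DY * s := by positivity
    calc |(DY * s : ℝ) * S (fun a : ℕ × ℕ => fb a.1 * gb a.2) X +
          S (fun a : ℕ × ℕ => S (fun b : ℕ × ℕ => f0 a.1 b.1 * g0 a.2 b.2) Y) X|
        ≤ (DY * s : ℝ) * |S (fun a : ℕ × ℕ => fb a.1 * gb a.2) X| +
          |S (fun a : ℕ × ℕ => S (fun b : ℕ × ℕ => f0 a.1 b.1 * g0 a.2 b.2) Y) X| := by
          refine (abs_add_le _ _).trans ?_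
          rw [abs_mul, abs_of_nonneg hDY]
      _ ≤ (DY * s : ℝ) * (lm * DX * (√(∑ v ∈ range m, fb v ^ 2) * √(∑ v ∈ range m, gb v ^ 2))) +
          lm * DY * (DX * (√(∑ v ∈ range m, ∑ i ∈ range s, f0 v i ^ 2) *
          √(∑ v ∈ range m, ∑ i ∈ range s, g0 v i ^ 2))) :=
          add_le_add (mul_le_mul_of_nonneg_left p1 hDY) p2
      _ = lm * (DX * DY) * (s * (√(∑ v ∈ range m, fb v ^ 2) * √(∑ v ∈ range m, gb v ^ 2)) +
          √(∑ v ∈ range m, ∑ i ∈ range s, f0 v i ^ 2) *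
          √(∑ v ∈ range m, ∑ i ∈ range s, g0 v i ^ 2)) := by ring
      _ ≤ lm * (DX * DY) * (√((s : ℝ) * ∑ v ∈ range m, fb v ^ 2 +
          ∑ v ∈ range m, ∑ i ∈ range s, f0 v i ^ 2) * √((s : ℝ) * ∑ v ∈ range m, gb v ^ 2 +
          ∑ v ∈ range m, ∑ i ∈ range s, g0 v i ^ 2)) :=
          mul_le_mul_of_nonneg_left hcs (mul_nonneg hX.nonneg (by positivity))
      _ = _ := by push_cast; rfl

/-- A host graph: a regular list of pairs on `n` points such that every point has few neighbours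
below `m`. -/
structure Host (n m D : ℕ) (lm θ : ℝ) (P : List (ℕ × ℕ)) : Prop where
  mpos : 0 < m
  le : 2 * m ≤ n
  dpos : 0 < D
  reg : Reg n D lm P
  fewL : ∀ u < n, S (fun p => if p.1 = u ∧ p.2 < m then (1 : ℝ) else 0) P ≤ θ * D
  fewR : ∀ u < n, S (fun p => if p.2 = u ∧ p.1 < m then (1 : ℝ) else 0) P ≤ θ * D

theorem host_prd (hm : 1 ≤ m) (hs : 2 ≤ s) (hX : Reg m DX lm X) (hY : Reg s DY lm Y)
    (hDX : 0 < DX) (hDY : 0 < DY) :
    Host (s * m) m (DX * DY) lm (1 / s + lm) (prd m X Y) := by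
  have key : ∀ i v i' v' : ℕ, v < m → v' < m → (i * m + v = i' * m + v' ↔ i = i' ∧ v = v') := by
    intro i v i' v' hv hv'
    constructor
    · intro h
      have h1 := Pool.Agent.H243R3.PCP.dm (x := i) hv
      have h2 := Pool.Agent.H243R3.PCP.dm (x := i') hv'
      rw [h] at h1
      exact ⟨h1.1.symm.trans h2.1, h1.2.symm.trans h2.2⟩
    · rintro ⟨rfl, rfl⟩
      rfl
  have low : ∀ i v : ℕ, v < m → (i * m + v < m ↔ i = 0) := by
    intro i v hv
    constructor
    · intro h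
      by_contra hi
      have : 1 * m ≤ i * m := Nat.mul_le_mul_right _ (by omega)
      omega
    · rintro rfl
      omega
  refine ⟨hm, Nat.mul_le_mul_right _ hs, by positivity, reg_prd (by omega) hX hY, ?_, ?_⟩
  · intro u hu
    set i0 := u / m with hi0
    set v0 := u % m with hv0
    have hv0' : v0 < m := Nat.mod_lt _ hm
    have hu' : u = i0 * m + v0 := by rw [mul_comm]; exact (Nat.div_add_mod u m).symm
    have hi0' : i0 < s := by
      rw [hi0, Nat.div_lt_iff_lt_mul (by omega)]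
      exact hu
    rw [S_prd]
    simp only
    have h1 : S (fun a : ℕ × ℕ => S (fun b : ℕ × ℕ =>
        if b.1 * m + a.1 = u ∧ b.2 * m + a.2 < m then (1 : ℝ) else 0) Y) X =
        S (fun a : ℕ × ℕ => S (fun b : ℕ × ℕ => if b.1 = i0 ∧ b.2 = 0 then (1 : ℝ) else 0) Y *
          (if a.1 = v0 then 1 else 0)) X := by
      refine S_congr fun a ha => ?_
      rw [mul_comm, ← S_mul]
      refine S_congr fun b _ => ?_
      obtain ⟨ha1, ha2⟩ := hX.lt a ha
      rw [hu']
      simp only [key _ _ _ _ ha1 hv0', low _ _ ha2]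
      by_cases c1 : b.1 = i0 <;> by_cases c2 : b.2 = 0 <;> by_cases c3 : a.1 = v0 <;>
        simp [c1, c2, c3]
    rw [h1, S_mul, hX.left fun v => if v = v0 then 1 else 0, sum_ite_eq',
      if_pos (mem_range.2 hv0')]
    have h2 := hY.pt hi0' (show 0 < s by omega)
    push_cast
    have h3 := mul_le_mul_of_nonneg_right h2 (Nat.cast_nonneg (α := ℝ) DX)
    linarith
  · intro u hu
    set i0 := u / m with hi0
    set v0 := u % m with hv0
    have hv0' : v0 < m := Nat.mod_lt _ hm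
    have hu' : u = i0 * m + v0 := by rw [mul_comm]; exact (Nat.div_add_mod u m).symm
    have hi0' : i0 < s := by
      rw [hi0, Nat.div_lt_iff_lt_mul (by omega)]
      exact hu
    rw [S_prd]
    simp only
    have h1 : S (fun a : ℕ × ℕ => S (fun b : ℕ × ℕ =>
        if b.2 * m + a.2 = u ∧ b.1 * m + a.1 < m then (1 : ℝ) else 0) Y) X =
        S (fun a : ℕ × ℕ => S (fun b : ℕ × ℕ => if b.1 = 0 ∧ b.2 = i0 then (1 : ℝ) else 0) Y *
          (if a.2 = v0 then 1 else 0)) X := by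
      refine S_congr fun a ha => ?_
      rw [mul_comm, ← S_mul]
      refine S_congr fun b _ => ?_
      obtain ⟨ha1, ha2⟩ := hX.lt a ha
      rw [hu']
      simp only [key _ _ _ _ ha2 hv0', low _ _ ha1]
      by_cases c1 : b.2 = i0 <;> by_cases c2 : b.1 = 0 <;> by_cases c3 : a.2 = v0 <;>
        simp [c1, c2, c3]
    rw [h1, S_mul, hX.right fun v => if v = v0 then 1 else 0, sum_ite_eq',
      if_pos (mem_range.2 hv0')]
    have h2 := hY.pt (show 0 < s by omega) hi0'
    push_cast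
    have h3 := mul_le_mul_of_nonneg_right h2 (Nat.cast_nonneg (α := ℝ) DX)
    linarith

end Pool.Agent.K6.H49.UGB
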